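import Pool.Agent.Lib.MP_f23337_gt.Indep

/-!
Bounded abelian groups are direct sums of cyclic groups (in the form: they are spanned by an
independent set), and the splitting lemma.
-/

set_option autoImplicit false

namespace Pool.Agent.MP_f23337_gt

open Set Cardinal Submodule

universe u v w

variable {A : Type u} [AddCommGroup A]

/-- Independent subset. -/
def IndepSet (B : Set A) : Prop := IndepOn (id : A → A) B

/-- A complement of a homogeneous bounded subgroup. -/
theorem exists_isCompl_of_homogeneous {p k : ℕ} (hp : p.Prime)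
    (hA : ∀ x : A, p ^ (k + 1) • x = 0) (H : Submodule ℤ A)
    (hH : ∀ h ∈ H, p ^ k • h = 0 → ∃ h' ∈ H, p • h' = h) :
    ∃ C : Submodule ℤ A, IsCompl H C := by
  classical
  obtain ⟨C, -, hC⟩ := zorn_le_nonempty₀ {C : Submodule ℤ A | Disjoint H C}
    (fun c hc hchain y hy => ⟨sSup c, by
      change Disjoint H (sSup c)
      rw [DirectedOn.disjoint_sSup_right hchain.directedOn]
      exact fun b hb => hc hb, fun z hz => le_sSup hz⟩) ⊥ disjoint_bot_right
  have hdisj : Disjoint H C := hC.prop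
  refine ⟨C, hdisj, ?_⟩
  rw [codisjoint_iff, eq_top_iff]
  by_contra hcon
  obtain ⟨x, -, hx⟩ := SetLike.not_le_iff_exists.1 hcon
  have hdisj' : ∀ y, y ∈ H → y ∈ C → y = 0 := fun y h1 h2 => by
    have := Submodule.disjoint_def.1 hdisj y h1 h2
    exact this
  -- the least power of `p` that sends `x` into `H ⊔ C`
  have hex : ∃ j, p ^ j • x ∈ H ⊔ C := ⟨k + 1, by rw [hA]; exact zero_mem _⟩
  have hj0 : Nat.find hex ≠ 0 := by
    intro h0
    have := Nat.find_spec hex
    rw [h0, pow_zero, one_smul] at this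
    exact hx this
  obtain ⟨j, hj⟩ := Nat.exists_eq_succ_of_ne_zero hj0
  have hx0 : p ^ j • x ∉ H ⊔ C := Nat.find_min hex (by omega)
  have hpx0 : p • (p ^ j • x) ∈ H ⊔ C := by
    have := Nat.find_spec hex
    rw [hj, pow_succ'] at this
    rwa [smul_smul]
  generalize p ^ j • x = x₀ at hx0 hpx0
  obtain ⟨h, hh, c, hc, hhc⟩ := Submodule.mem_sup.1 hpx0
  have h1 : p ^ k • h + p ^ k • c = 0 := by
    rw [← smul_add, hhc, smul_smul, ← pow_succ, hA]
  have h2 : p ^ k • h = 0 := by
    refine hdisj' _ (H.smul_of_tower_mem _ hh) ?_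
    rw [eq_neg_of_add_eq_zero_left h1]
    exact neg_mem (C.smul_of_tower_mem _ hc)
  obtain ⟨h', hh', rfl⟩ := hH h hh h2
  set x' := x₀ - h' with hx'
  have hpx' : p • x' = c := by
    rw [hx', smul_sub, ← hhc]
    abel
  have hx'C : x' ∉ C := by
    intro hmem
    apply hx0
    have : x₀ = h' + x' := by rw [hx']; abel
    rw [this]
    exact Submodule.add_mem_sup hh' hmem
  have hnd : ¬ Disjoint H (C ⊔ span ℤ {x'}) := by
    intro hd
    have := hC.le_of_ge hd le_sup_left
    exact hx'C (this (Submodule.mem_sup_right (Submodule.mem_span_singleton_self x')))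
  rw [Submodule.disjoint_def] at hnd
  push Not at hnd
  obtain ⟨y, hyH, hyC, hy0⟩ := hnd
  obtain ⟨c', hc', z, hz, hyz⟩ := Submodule.mem_sup.1 hyC
  obtain ⟨m, rfl⟩ := Submodule.mem_span_singleton.1 hz
  by_cases hpm : (p : ℤ) ∣ m
  · obtain ⟨m', rfl⟩ := hpm
    apply hy0
    refine hdisj' y hyH ?_
    rw [← hyz]
    refine add_mem hc' ?_
    rw [mul_comm, mul_smul, natCast_zsmul, hpx']
    exact C.smul_mem _ hc
  · have hcop : IsCoprime m (p : ℤ) :=
      ((Nat.prime_iff_prime_int.1 hp).coprime_iff_not_dvd.2 hpm).symm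
    obtain ⟨a, b, hab⟩ := hcop
    apply hx0
    have hx'eq : x' = a • y - a • c' + b • c := by
      have h3 : x' = (a * m + b * p) • x' := by rw [hab, one_smul]
      rw [h3, add_smul, mul_smul, mul_smul, natCast_zsmul, hpx', ← hyz, smul_add]
      abel
    have hx'mem : x' ∈ H ⊔ C := by
      rw [hx'eq]
      refine add_mem (sub_mem ?_ ?_) ?_
      · exact Submodule.mem_sup_left (H.smul_mem _ hyH)
      · exact Submodule.mem_sup_right (C.smul_mem _ hc')
      · exact Submodule.mem_sup_right (C.smul_mem _ hc)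
    have : x₀ = h' + x' := by rw [hx']; abel
    rw [this]
    exact add_mem (Submodule.mem_sup_left hh') hx'mem

theorem IndepOn.map_injective {α : Type v} {E : α → A} {S : Set α} (h : IndepOn E S)
    {N : Type w} [AddCommGroup N] (f : A →+ N) (hf : Function.Injective f) :
    IndepOn (fun i => f (E i)) S := by
  intro s hs c hc i hi
  have h1 : f (∑ i ∈ s, c i • E i) = 0 := by
    rw [map_sum, ← hc]
    exact Finset.sum_congr rfl fun i _ => map_zsmul f _ _
  have h2 := h s hs c (hf (by rw [h1, map_zero])) i hi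
  rw [← map_zsmul, h2, map_zero]

theorem IndepSet.image {B : Set A} (h : IndepSet B) {N : Type w} [AddCommGroup N]
    (f : A →+ N) (hf : Function.Injective f) : IndepSet (f '' B) :=
  IndepOn.image (E := (id : N → N)) (φ := f) (IndepOn.map_injective h f hf)

theorem IndepSet.union {H C : Submodule ℤ A} (hHC : Disjoint H C) {B₁ B₂ : Set A}
    (h₁ : IndepSet B₁) (h₂ : IndepSet B₂) (hB₁ : B₁ ⊆ H) (hB₂ : B₂ ⊆ C) :
    IndepSet (B₁ ∪ B₂) := by
  classical
  intro s hs c hc
  have hsub1 : (↑(s.filter (· ∈ B₁)) : Set A) ⊆ B₁ := fun x hx => (Finset.mem_filter.1 hx).2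
  have hsub2 : (↑(s.filter (· ∉ B₁)) : Set A) ⊆ B₂ := fun x hx =>
    (hs (Finset.mem_filter.1 hx).1).resolve_left (Finset.mem_filter.1 hx).2
  have hsplit := Finset.sum_filter_add_sum_filter_not s (· ∈ B₁) (fun i => c i • (id i : A))
  rw [hc] at hsplit
  have hmem1 : ∑ i ∈ s.filter (· ∈ B₁), c i • (id i : A) ∈ H :=
    Submodule.sum_mem _ fun i hi => H.smul_mem _ (hB₁ (hsub1 hi))
  have hmem2 : ∑ i ∈ s.filter (· ∉ B₁), c i • (id i : A) ∈ C :=
    Submodule.sum_mem _ fun i hi => C.smul_mem _ (hB₂ (hsub2 hi))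
  have hz1 : ∑ i ∈ s.filter (· ∈ B₁), c i • (id i : A) = 0 := by
    refine Submodule.disjoint_def.1 hHC _ hmem1 ?_
    rw [eq_neg_of_add_eq_zero_left hsplit]
    exact neg_mem hmem2
  have hz2 : ∑ i ∈ s.filter (· ∉ B₁), c i • (id i : A) = 0 := by
    rw [hz1, zero_add] at hsplit
    exact hsplit
  intro i hi
  by_cases hiB : i ∈ B₁
  · exact h₁ _ hsub1 c hz1 i (Finset.mem_filter.2 ⟨hi, hiB⟩)
  · exact h₂ _ hsub2 c hz2 i (Finset.mem_filter.2 ⟨hi, hiB⟩)

/-- The group is spanned by an independent set (it is a direct sum of cyclic groups). -/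
def HasBasis (A : Type u) [AddCommGroup A] : Prop :=
  ∃ B : Set A, IndepSet B ∧ span ℤ B = ⊤

theorem HasBasis.sub {C : Submodule ℤ A} (h : HasBasis C) :
    ∃ B : Set A, IndepSet B ∧ span ℤ B = C := by
  obtain ⟨B, hB, hspan⟩ := h
  refine ⟨C.subtype.toAddMonoidHom '' B, hB.image _ C.injective_subtype, ?_⟩
  have : span ℤ (C.subtype '' B) = map C.subtype (span ℤ B) := Submodule.span_image _
  change span ℤ (C.subtype '' B) = C
  rw [this, hspan, Submodule.map_top, Submodule.range_subtype]

theorem hasBasis_of_isCompl {H C : Submodule ℤ A} (hHC : IsCompl H C) (hH : HasBasis H)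
    (hC : HasBasis C) : HasBasis A := by
  obtain ⟨B₁, h₁, hs₁⟩ := hH.sub
  obtain ⟨B₂, h₂, hs₂⟩ := hC.sub
  refine ⟨B₁ ∪ B₂, IndepSet.union hHC.disjoint h₁ h₂ ?_ ?_, ?_⟩
  · rw [← hs₁]; exact subset_span
  · rw [← hs₂]; exact subset_span
  · rw [span_union, hs₁, hs₂, hHC.sup_eq_top]

theorem hasBasis_span {B : Set A} (hB : IndepSet B) : HasBasis (span ℤ B) := by
  classical
  set H : Submodule ℤ A := span ℤ B with hHdef
  refine ⟨Subtype.val ⁻¹' B, ?_, ?_⟩
  · intro s hs c hc i hi
    have h1 : ∑ j ∈ s.image (Subtype.val : H → A), (fun a => if h : a ∈ H then c ⟨a, h⟩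
        else 0) j • (id j : A) = 0 := by
      rw [Finset.sum_image (fun a _ b _ hab => Subtype.ext hab)]
      have := congrArg (Subtype.val : H → A) hc
      rw [AddSubmonoidClass.coe_finsetSum] at this
      rw [ZeroMemClass.coe_zero] at this
      rw [← this]
      refine Finset.sum_congr rfl fun j _ => ?_
      simp
    have h2 := hB (s.image (Subtype.val : H → A)) (by
      intro a ha
      rw [Finset.coe_image] at ha
      obtain ⟨b, hb, rfl⟩ := ha
      exact hs hb) _ h1 i (Finset.mem_image_of_mem _ hi)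
    apply Subtype.ext
    simpa using h2
  · rw [eq_top_iff]
    intro x _
    have : map H.subtype (span ℤ (Subtype.val ⁻¹' B)) = H := by
      rw [Submodule.map_span]
      have h3 : H.subtype '' (Subtype.val ⁻¹' B) = B := by
        refine Set.image_preimage_eq_of_subset ?_
        intro b hb
        exact ⟨⟨b, subset_span hb⟩, rfl⟩
      rw [h3]
    have hx2 : (x : A) ∈ map H.subtype (span ℤ (Subtype.val ⁻¹' B)) := by
      rw [this]; exact x.2
    obtain ⟨y, hy, hyx⟩ := hx2
    have : y = x := Subtype.ext hyx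
    rwa [← this]

/-- A maximal independent set of elements of maximal order, with a complement of smaller
exponent. -/
theorem exists_top_basis {p k : ℕ} (hp : p.Prime) (hA : ∀ x : A, p ^ (k + 1) • x = 0) :
    ∃ B : Set A, IndepSet B ∧ (∀ b ∈ B, p ^ k • b ≠ 0) ∧
      ∃ C : Submodule ℤ A, IsCompl (span ℤ B) C ∧ ∀ c ∈ C, p ^ k • c = 0 := by
  classical
  let α : Type u := {x : A // p ^ k • x ≠ 0}
  obtain ⟨S, -, hS, hmax⟩ := exists_maximal_indepOn (fun a : α => (a : A)) ∅
    (fun s hs c hc i hi => absurd (hs hi) (Set.notMem_empty i))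
  set B : Set A := (fun a : α => (a : A)) '' S with hBdef
  have hB : IndepSet B := IndepOn.image (E := (id : A → A)) (φ := fun a : α => (a : A)) hS
  have hBk : ∀ b ∈ B, p ^ k • b ≠ 0 := by
    rintro _ ⟨a, -, rfl⟩
    exact a.2
  set H : Submodule ℤ A := span ℤ B with hHdef
  have hH : ∀ h ∈ H, p ^ k • h = 0 → ∃ h' ∈ H, p • h' = h := by
    intro h hh hph
    rw [hHdef, ← Set.image_id B, Finsupp.mem_span_image_iff_linearCombination] at hh
    obtain ⟨l, hl, rfl⟩ := hh
    rw [Finsupp.mem_supported] at hl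
    rw [Finsupp.linearCombination_apply, Finsupp.sum] at hph ⊢
    have h1 : ∑ i ∈ l.support, ((p : ℤ) ^ k * l i) • (id i : A) = 0 := by
      rw [← hph, Finset.smul_sum]
      refine Finset.sum_congr rfl fun i _ => ?_
      rw [mul_smul, ← Nat.cast_pow, natCast_zsmul]
    have h2 := hB l.support hl (fun i => (p : ℤ) ^ k * l i) h1
    have h3 : ∀ i ∈ l.support, (p : ℤ) ∣ l i := by
      intro i hi
      have h4 := h2 i hi
      rw [← addOrderOf_dvd_iff_zsmul_eq_zero] at h4
      have : Fact p.Prime := ⟨hp⟩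
      rw [show (id i : A) = i from rfl,
        addOrderOf_eq_prime_pow (hBk i (hl hi)) (hA i)] at h4
      have hpk : ((p : ℤ) ^ k) ≠ 0 := pow_ne_zero _ (by exact_mod_cast hp.ne_zero)
      rw [Nat.cast_pow, pow_succ] at h4
      exact (mul_dvd_mul_iff_left hpk).1 h4
    choose! m hm using h3
    refine ⟨∑ i ∈ l.support, m i • (id i : A), ?_, ?_⟩
    · exact Submodule.sum_mem _ fun i hi => H.smul_mem _ (subset_span (hl hi))
    · rw [Finset.smul_sum]
      refine Finset.sum_congr rfl fun i hi => ?_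
      rw [hm i hi, mul_smul, natCast_zsmul]
  obtain ⟨C, hHC⟩ := exists_isCompl_of_homogeneous hp hA H hH
  have hCk : ∀ c ∈ C, p ^ k • c = 0 := by
    intro c hc
    by_contra hne
    obtain ⟨l, hl0, hl⟩ := hmax ⟨c, hne⟩ (fun h => hne (by
      change c = 0 at h
      rw [h, smul_zero]))
    apply hl0
    exact Submodule.disjoint_def.1 hHC.disjoint _ hl (C.smul_mem _ hc)
  exact ⟨B, hB, hBk, C, hHC, hCk⟩

theorem hasBasis_prime_pow {p : ℕ} (hp : p.Prime) (k : ℕ) :
    ∀ (A : Type u) [AddCommGroup A], (∀ x : A, p ^ k • x = 0) → HasBasis A := by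
  classical
  induction k with
  | zero =>
    intro A _ hA
    refine ⟨∅, fun s hs c hc i hi => absurd (hs hi) (Set.notMem_empty i), ?_⟩
    rw [span_empty, eq_comm, eq_bot_iff]
    intro x _
    have := hA x
    rw [pow_zero, one_smul] at this
    rw [this]
    exact zero_mem _
  | succ k ih =>
    intro A _ hA
    obtain ⟨B, hB, -, C, hHC, hCk⟩ := exists_top_basis hp hA
    exact hasBasis_of_isCompl hHC (hasBasis_span hB) (ih C (fun x => Subtype.ext (hCk x x.2)))

theorem isCompl_torsionBy {a b : ℕ} (hab : Nat.Coprime a b) (hA : ∀ x : A, (a * b) • x = 0) :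
    IsCompl (torsionBy ℤ A (a : ℤ)) (torsionBy ℤ A (b : ℤ)) := by
  obtain ⟨u, v, huv⟩ : IsCoprime (a : ℤ) (b : ℤ) := Nat.isCoprime_iff_coprime.2 hab
  have hA' : ∀ x : A, ((a : ℤ) * b) • x = 0 := by
    intro x
    have := hA x
    rw [← natCast_zsmul] at this
    simpa using this
  constructor
  · rw [Submodule.disjoint_def]
    intro x hx hy
    rw [Submodule.mem_torsionBy_iff] at hx hy
    have : x = (u * a + v * b) • x := by rw [huv, one_smul]
    rw [this, add_smul, mul_smul, mul_smul, hx, hy, smul_zero, smul_zero, add_zero]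
  · rw [codisjoint_iff, eq_top_iff]
    intro x _
    have hx : x = (v * b) • x + (u * a) • x := by
      rw [← add_smul, add_comm, huv, one_smul]
    rw [hx]
    refine Submodule.add_mem_sup ?_ ?_
    · rw [Submodule.mem_torsionBy_iff, smul_smul]
      rw [show (a : ℤ) * (v * b) = v * (a * b) by ring, mul_smul, hA', smul_zero]
    · rw [Submodule.mem_torsionBy_iff, smul_smul]
      rw [show (b : ℤ) * (u * a) = u * (a * b) by ring, mul_smul, hA', smul_zero]

/-- Bounded abelian groups are spanned by an independent set. -/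
theorem hasBasis_of_bounded (d : ℕ) : 0 < d → ∀ (A : Type u) [AddCommGroup A],
    (∀ x : A, d • x = 0) → HasBasis A := by
  induction d using Nat.recOnPosPrimePosCoprime with
  | prime_pow p n hp _ =>
    intro _ A _ hA
    exact hasBasis_prime_pow hp n A hA
  | zero => intro h; exact absurd h (lt_irrefl 0)
  | one =>
    intro _ A _ hA
    exact hasBasis_prime_pow Nat.prime_two 0 A (fun x => by simpa using hA x)
  | coprime a b ha hb hab iha ihb =>
    intro _ A _ hA
    refine hasBasis_of_isCompl (isCompl_torsionBy hab hA) (iha (by omega) _ ?_)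
      (ihb (by omega) _ ?_)
    · rintro ⟨x, hx⟩
      rw [Submodule.mem_torsionBy_iff] at hx
      apply Subtype.ext
      simpa using hx
    · rintro ⟨x, hx⟩
      rw [Submodule.mem_torsionBy_iff] at hx
      apply Subtype.ext
      simpa using hx

end Pool.Agent.MP_f23337_gt
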