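import Mathlib

/-!
Well-ordered chains of closed subgroups of a compact abelian group and independent two-valued
functions.
-/

set_option autoImplicit false

namespace Pool.Agent.MP_f23337_gt

open Set

universe u v w

variable {K : Type u} [AddCommGroup K]

/-- A set of indices for which new elements appear, and which exhausts everything. -/
theorem exists_good_set {ι : Type v} [LinearOrder ι] [WellFoundedLT ι]
    (M T : ι → AddSubgroup K) (hMT : ∀ i, M i ≤ T i) :
    ∃ S : Set ι, (∀ i ∈ S, ∃ c : K, (∀ j ∈ S, j < i → c ∈ M j) ∧ c ∉ T i) ∧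
      ∀ x : K, (∀ j ∈ S, x ∈ M j) → ∀ i, x ∈ T i := by
  classical
  let step : (i : ι) → ((j : ι) → j < i → Prop) → Prop := fun i IH =>
    ∃ c : K, (∀ (j : ι) (hj : j < i), IH j hj → c ∈ M j) ∧ c ∉ T i
  let good : ι → Prop := (wellFounded_lt (α := ι)).fix step
  have hgood : ∀ i, good i ↔ ∃ c : K, (∀ j, j < i → good j → c ∈ M j) ∧ c ∉ T i := by
    intro i
    have h1 : good i = step i (fun j _ => good j) :=
      (wellFounded_lt (α := ι)).fix_eq step i
    rw [h1]
  refine ⟨{i | good i}, ?_, ?_⟩
  · intro i hi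
    obtain ⟨c, hc1, hc2⟩ := (hgood i).1 hi
    exact ⟨c, fun j hj hji => hc1 j hji hj, hc2⟩
  · intro x hx i
    by_cases hi : good i
    · exact hMT i (hx i hi)
    · by_contra hxi
      exact hi ((hgood i).2 ⟨x, fun j _ hj => hx j hj, hxi⟩)

/-- A two-valued function invariant under `T` that takes both values on every translate of the
cyclic group of `c`. -/
theorem exists_two_valued (T : AddSubgroup K) {c : K} (hc : c ∉ T) :
    ∃ h : K → Bool, (∀ x y, x - y ∈ T → h x = h y) ∧
      ∀ x b, ∃ k : ℤ, h (x + k • c) = b := by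
  classical
  let T' : AddSubgroup K := T ⊔ AddSubgroup.zmultiples c
  let r : K → K := fun x => (QuotientAddGroup.mk x : K ⧸ T').out
  have hr : ∀ x, x - r x ∈ T' := by
    intro x
    have h1 : (QuotientAddGroup.mk (r x) : K ⧸ T') = QuotientAddGroup.mk x :=
      QuotientAddGroup.out_eq' _
    rw [QuotientAddGroup.eq, neg_add_eq_sub] at h1
    exact h1
  have hrinv : ∀ x y, x - y ∈ T' → r x = r y := by
    intro x y hxy
    have : (QuotientAddGroup.mk x : K ⧸ T') = QuotientAddGroup.mk y := by
      rw [QuotientAddGroup.eq, neg_add_eq_sub, ← neg_sub]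
      exact neg_mem hxy
    change (QuotientAddGroup.mk x : K ⧸ T').out = (QuotientAddGroup.mk y : K ⧸ T').out
    rw [this]
  refine ⟨fun x => decide (x - r x ∈ T), ?_, ?_⟩
  · intro x y hxy
    have h1 : r x = r y := hrinv x y (AddSubgroup.mem_sup_left hxy)
    rw [decide_eq_decide, h1]
    constructor
    · intro h
      have : y - r y = (x - r y) - (x - y) := by abel
      rw [this]
      exact sub_mem h hxy
    · intro h
      have : x - r y = (y - r y) + (x - y) := by abel
      rw [this]
      exact add_mem h hxy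
  · intro x b
    obtain ⟨t, ht, z, hz, htz⟩ := AddSubgroup.mem_sup.1 (hr x)
    obtain ⟨k, rfl⟩ := AddSubgroup.mem_zmultiples_iff.1 hz
    have hrx : ∀ l : ℤ, r (x + l • c) = r x := fun l => by
      refine hrinv _ _ ?_
      rw [add_sub_cancel_left]
      exact AddSubgroup.mem_sup_right (AddSubgroup.mem_zmultiples_iff.2 ⟨l, rfl⟩)
    cases b with
    | true =>
      refine ⟨-k, ?_⟩
      rw [decide_eq_true_eq, hrx]
      have : x + (-k) • c - r x = t := by
        rw [neg_smul]
        have h2 : x + -(k • c) - r x = (x - r x) - k • c := by abel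
        rw [h2, ← htz]
        abel
      rw [this]
      exact ht
    | false =>
      refine ⟨-k + 1, ?_⟩
      rw [decide_eq_false_iff_not, hrx]
      have : x + (-k + 1) • c - r x = t + c := by
        rw [add_smul, neg_smul, one_smul]
        have h2 : x + (-(k • c) + c) - r x = (x - r x) - k • c + c := by abel
        rw [h2, ← htz]
        abel
      rw [this]
      intro hmem
      apply hc
      have h3 : c = (t + c) - t := by abel
      rw [h3]
      exact sub_mem hmem ht

/-- Simultaneous prescription of the values of the two-valued functions. -/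
theorem exists_solution [TopologicalSpace K] [IsTopologicalAddGroup K] [CompactSpace K]
    {ι : Type v} [LinearOrder ι] [WellFoundedLT ι]
    (M T : ι → AddSubgroup K) (hM : ∀ i, IsClosed (M i : Set K)) (hMT : ∀ i, M i ≤ T i)
    (c : ι → K) (hc : ∀ i j, j < i → c i ∈ M j)
    (h : ι → K → Bool) (hh : ∀ i x y, x - y ∈ T i → h i x = h i y)
    (hhc : ∀ i x b, ∃ k : ℤ, h i (x + k • c i) = b) (z : ι → Bool) :
    ∃ x : K, ∀ i, h i x = z i := by
  classical
  let α : Type (max u v) := {p : Set ι × K // IsLowerSet p.1 ∧ ∀ i ∈ p.1, h i p.2 = z i}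
  let r : α → α → Prop := fun p q =>
    p.1.1 ⊆ q.1.1 ∧ ∀ j ∈ p.1.1, q.1.2 - p.1.2 ∈ M j
  have htrans : ∀ {a b c : α}, r a b → r b c → r a c := by
    intro a b c hab hbc
    refine ⟨hab.1.trans hbc.1, fun j hj => ?_⟩
    have h1 : c.1.2 - a.1.2 = (c.1.2 - b.1.2) + (b.1.2 - a.1.2) := by abel
    rw [h1]
    exact add_mem (hbc.2 j (hab.1 hj)) (hab.2 j hj)
  have hrefl : ∀ a : α, r a a := fun a => ⟨subset_rfl, fun j _ => by
    rw [sub_self]; exact zero_mem _⟩
  have hchain : ∀ C : Set α, IsChain r C → ∃ ub, ∀ a ∈ C, r a ub := by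
    intro C hC
    rcases C.eq_empty_or_nonempty with rfl | hne
    · exact ⟨⟨(∅, 0), isLowerSet_empty, fun i hi => absurd hi (Set.notMem_empty i)⟩,
        fun a ha => absurd ha (Set.notMem_empty a)⟩
    have : Nonempty C := hne.to_subtype
    -- the closed sets `p.2 + ⋂ M j`
    let t : C → Set K := fun p => ⋂ j ∈ p.1.1.1, (fun x => x - p.1.1.2) ⁻¹' (M j : Set K)
    have htcl : ∀ p, IsClosed (t p) := fun p =>
      isClosed_biInter fun j _ => (hM j).preimage (continuous_id.sub continuous_const)
    have htne : ∀ p, (t p).Nonempty := fun p => ⟨p.1.1.2, by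
      simp only [t, Set.mem_iInter]
      intro j _
      change p.1.1.2 - p.1.1.2 ∈ M j
      rw [sub_self]
      exact zero_mem _⟩
    have hanti : ∀ p q : C, r p.1 q.1 → t q ⊆ t p := by
      intro p q hpq x hx
      simp only [t, Set.mem_iInter] at hx ⊢
      intro j hj
      have h1 : x - q.1.1.2 ∈ M j := hx j (hpq.1 hj)
      change x - p.1.1.2 ∈ M j
      have h2 : x - p.1.1.2 = (x - q.1.1.2) + (q.1.1.2 - p.1.1.2) := by abel
      rw [h2]
      exact add_mem h1 (hpq.2 j hj)
    have hdir : Directed (· ⊇ ·) t := by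
      intro p q
      have : Std.Refl r := ⟨hrefl⟩
      rcases hC.total p.2 q.2 with h1 | h1
      · exact ⟨q, hanti p q h1, subset_rfl⟩
      · exact ⟨p, subset_rfl, hanti q p h1⟩
    obtain ⟨x, hx⟩ := IsCompact.nonempty_iInter_of_directed_nonempty_isCompact_isClosed t hdir
      htne (fun p => (htcl p).isCompact) htcl
    rw [Set.mem_iInter] at hx
    have hxm : ∀ p ∈ C, ∀ j ∈ p.1.1, x - p.1.2 ∈ M j := by
      intro p hp j hj
      have h1 := hx ⟨p, hp⟩
      simp only [t, Set.mem_iInter] at h1
      exact h1 j hj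
    refine ⟨⟨(⋃ p ∈ C, p.1.1, x), ?_, ?_⟩, ?_⟩
    · exact isLowerSet_iUnion₂ fun p _ => p.2.1
    · intro i hi
      obtain ⟨p, hp, hip⟩ := Set.mem_iUnion₂.1 hi
      change h i x = z i
      rw [hh i x p.1.2 (hMT i (hxm p hp i hip))]
      exact p.2.2 i hip
    · intro a ha
      exact ⟨Set.subset_biUnion_of_mem (u := fun p : α => p.1.1) ha, fun j hj => hxm a ha j hj⟩
  obtain ⟨m, hm⟩ := exists_maximal_of_chains_bounded hchain htrans
  have hall : m.1.1 = Set.univ := by
    by_contra hne
    obtain ⟨i₀, hi₀⟩ := (Set.ne_univ_iff_exists_notMem _).1 hne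
    obtain ⟨i, hi, hmin⟩ := (wellFounded_lt (α := ι)).has_min (m.1.1)ᶜ ⟨i₀, hi₀⟩
    have hlt : ∀ j, j < i → j ∈ m.1.1 := by
      intro j hj
      by_contra hjm
      exact hmin j hjm hj
    have hlt' : ∀ j ∈ m.1.1, j < i := by
      intro j hj
      by_contra hji
      exact hi (m.2.1 (not_lt.1 hji) hj)
    obtain ⟨k, hk⟩ := hhc i m.1.2 (z i)
    have hdiff : ∀ j ∈ m.1.1, (m.1.2 + k • c i) - m.1.2 ∈ M j := by
      intro j hj
      rw [add_sub_cancel_left]
      exact (M j).zsmul_mem (hc i j (hlt' j hj)) k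
    let m' : α := ⟨(insert i m.1.1, m.1.2 + k • c i), by
      intro a b hba ha
      rcases ha with rfl | ha
      · rcases hba.eq_or_lt with rfl | hlt1
        · exact Set.mem_insert _ _
        · exact Set.mem_insert_of_mem _ (hlt _ hlt1)
      · exact Set.mem_insert_of_mem _ (m.2.1 hba ha), by
      intro j hj
      rcases hj with rfl | hj
      · exact hk
      · change h j (m.1.2 + k • c i) = z j
        rw [hh j _ m.1.2 (hMT j (hdiff j hj))]
        exact m.2.2 j hj⟩
    have h1 : r m m' := ⟨Set.subset_insert _ _, hdiff⟩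
    exact hi ((hm m' h1).1 (Set.mem_insert _ _))
  exact ⟨m.1.2, fun i => m.2.2 i (by rw [hall]; trivial)⟩

end Pool.Agent.MP_f23337_gt
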