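import Mathlib

/-!
Closed `Gδ` subgroups of a compact Hausdorff abelian group.
-/

set_option autoImplicit false

namespace Pool.Agent.MP_f23337_gt

open Set Topology

universe u v w

variable {K : Type u} [AddCommGroup K] [TopologicalSpace K]

/-- Closed `Gδ` subgroups. -/
def GSub (M : AddSubgroup K) : Prop := IsClosed (M : Set K) ∧ IsGδ (M : Set K)

theorem GSub.iInf {ι : Type v} [Countable ι] {M : ι → AddSubgroup K} (h : ∀ i, GSub (M i)) :
    GSub (⨅ i, M i) := by
  constructor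
  · rw [AddSubgroup.coe_iInf]
    exact isClosed_iInter fun i => (h i).1
  · rw [AddSubgroup.coe_iInf]
    exact IsGδ.iInter fun i => (h i).2

variable [IsTopologicalAddGroup K]

theorem exists_gsub_notMem [T2Space K] {y : K} (hy : y ≠ 0) :
    ∃ M : AddSubgroup K, GSub M ∧ y ∉ M := by
  classical
  -- a decreasing sequence of open neighbourhoods
  have hstep : ∀ V : {V : Set K // IsOpen V ∧ (0 : K) ∈ V}, ∃ W : {V : Set K // IsOpen V ∧
      (0 : K) ∈ V}, ∀ v ∈ W.1, ∀ w ∈ W.1, v - w ∈ V.1 := by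
    rintro ⟨V, hV, h0⟩
    obtain ⟨W, hW, hWV⟩ := exists_nhds_half_neg (hV.mem_nhds h0)
    obtain ⟨W', hW'W, hW'o, hW'0⟩ := mem_nhds_iff.1 hW
    exact ⟨⟨W', hW'o, hW'0⟩, fun v hv w hw => hWV v (hW'W hv) w (hW'W hw)⟩
  choose next hnext using hstep
  let V₀ : {V : Set K // IsOpen V ∧ (0 : K) ∈ V} := ⟨{y}ᶜ, isOpen_compl_singleton, fun h => hy h.symm⟩
  let V : ℕ → {V : Set K // IsOpen V ∧ (0 : K) ∈ V} := fun n => Nat.rec V₀ (fun _ V => next V) n
  have hV : ∀ n, ∀ v ∈ (V (n + 1)).1, ∀ w ∈ (V (n + 1)).1, v - w ∈ (V n).1 := fun n =>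
    hnext (V n)
  have hmono : ∀ n, (V (n + 1)).1 ⊆ (V n).1 := by
    intro n v hv
    have := hV n v hv 0 (V (n + 1)).2.2
    rwa [sub_zero] at this
  let M : AddSubgroup K :=
    { carrier := {x | ∀ n, x ∈ (V n).1}
      zero_mem' := fun n => (V n).2.2
      neg_mem' := by
        intro x hx n
        have := hV n 0 (V (n + 1)).2.2 x (hx (n + 1))
        rwa [zero_sub] at this
      add_mem' := by
        intro x y hx hy n
        have h1 : -y ∈ (V (n + 1)).1 := by
          have := hV (n + 1) 0 (V (n + 2)).2.2 y (hy (n + 2))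
          rwa [zero_sub] at this
        have := hV n x (hx (n + 1)) (-y) h1
        rwa [sub_neg_eq_add] at this }
  have hMset : (M : Set K) = ⋂ n, (V n).1 := by
    ext x
    simp [M]
  refine ⟨M, ⟨?_, ?_⟩, ?_⟩
  · rw [← isOpen_compl_iff, isOpen_iff_mem_nhds]
    intro x hx
    have hx' : ¬ ∀ n, x ∈ (V n).1 := hx
    push Not at hx'
    obtain ⟨n, hn⟩ := hx'
    have hnhds : {z | z - x ∈ (V (n + 1)).1} ∈ 𝓝 x := by
      have hcont : Continuous fun z : K => z - x := continuous_id.sub continuous_const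
      exact (((V (n + 1)).2.1).preimage hcont).mem_nhds (by
        change x - x ∈ (V (n + 1)).1
        rw [sub_self]
        exact (V (n + 1)).2.2)
    filter_upwards [hnhds] with z hz hzM
    apply hn
    have h1 := hV n z (hzM (n + 1)) (z - x) hz
    rwa [sub_sub_cancel] at h1
  · rw [hMset]
    exact IsGδ.iInter_of_isOpen fun n => (V n).2.1
  · intro hyM
    exact hyM 0 rfl

theorem exists_finite_classes [CompactSpace K] {O : Set K} (hO : O ∈ 𝓝 (0 : K)) :
    ∃ g : K → ℕ, ∀ x y, g x = g y → x - y ∈ O := by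
  classical
  obtain ⟨V, hV, hVO⟩ := exists_nhds_half_neg hO
  have hnhds : ∀ a : K, {z | z - a ∈ V} ∈ 𝓝 a := by
    intro a
    have hcont : Continuous fun z : K => z - a := continuous_id.sub continuous_const
    refine hcont.continuousAt ?_
    rw [sub_self]
    exact hV
  obtain ⟨t, -, ht⟩ := (isCompact_univ (X := K)).elim_nhds_subcover (fun a => {z | z - a ∈ V})
    (fun a _ => hnhds a)
  have hex : ∀ x : K, ∃ a : t, x - a ∈ V := by
    intro x
    obtain ⟨a, ha, hx⟩ := Set.mem_iUnion₂.1 (ht (Set.mem_univ x))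
    exact ⟨⟨a, ha⟩, hx⟩
  choose f hf using hex
  obtain ⟨e, he⟩ := Countable.exists_injective_nat t
  refine ⟨fun x => e (f x), fun x y hxy => ?_⟩
  have h1 : f x = f y := he hxy
  have h2 : x - y = (x - f x) - (y - f y) := by rw [h1]; abel
  rw [h2]
  exact hVO _ (hf x) _ (hf y)

theorem exists_classes [CompactSpace K] {M : AddSubgroup K} (hM : IsGδ (M : Set K)) :
    ∃ g : K → (ℕ → ℕ), ∀ x y, g x = g y → x - y ∈ M := by
  obtain ⟨O, hO, hMO⟩ := hM.eq_iInter_nat
  have h0 : ∀ n, O n ∈ 𝓝 (0 : K) := by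
    intro n
    refine (hO n).mem_nhds ?_
    have : (0 : K) ∈ (M : Set K) := M.zero_mem
    rw [hMO] at this
    exact Set.mem_iInter.1 this n
  choose g hg using fun n => exists_finite_classes (h0 n)
  refine ⟨fun x n => g n x, fun x y hxy => ?_⟩
  have : x - y ∈ (M : Set K) := by
    rw [hMO, Set.mem_iInter]
    intro n
    exact hg n x y (congrFun hxy n)
  exact this

/-- A closed subgroup that is torsion modulo a closed subgroup is bounded modulo it. -/
theorem exists_bound_mod [CompactSpace K] [T2Space K] {N M : AddSubgroup K}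
    (hN : IsClosed (N : Set K)) (hM : IsClosed (M : Set K))
    (h : ∀ x ∈ N, ∃ k : ℕ, 0 < k ∧ k • x ∈ M) : ∃ n : ℕ, 0 < n ∧ ∀ x ∈ N, n • x ∈ M := by
  have : CompactSpace N := isCompact_iff_compactSpace.1 hN.isCompact
  let P : ℕ → AddSubgroup N := fun k =>
    M.comap ((nsmulAddMonoidHom (k + 1)).comp N.subtype)
  have hPcl : ∀ k, IsClosed (P k : Set N) := by
    intro k
    have hcont : Continuous fun x : N => (k + 1) • (x : K) :=
      (continuous_nsmul (k + 1)).comp continuous_subtype_val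
    exact hM.preimage hcont
  have hPun : ⋃ k, (P k : Set N) = Set.univ := by
    rw [Set.eq_univ_iff_forall]
    intro x
    obtain ⟨k, hk, hkx⟩ := h x x.2
    rw [Set.mem_iUnion]
    refine ⟨k - 1, ?_⟩
    change (k - 1 + 1) • (x : K) ∈ M
    rw [Nat.sub_add_cancel hk]
    exact hkx
  obtain ⟨k, x, hx⟩ := nonempty_interior_of_iUnion_of_closed hPcl hPun
  have hopen : IsOpen (P k : Set N) :=
    (P k).isOpen_of_mem_nhds (mem_interior_iff_mem_nhds.1 hx)
  have hfin : Finite (N ⧸ P k) := AddSubgroup.quotient_finite_of_isOpen (P k) hopen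
  refine ⟨(k + 1) * Nat.card (N ⧸ P k), Nat.mul_pos (Nat.succ_pos k) Nat.card_pos, ?_⟩
  intro x hx
  have h1 : Nat.card (N ⧸ P k) • (QuotientAddGroup.mk ⟨x, hx⟩ : N ⧸ P k) = 0 :=
    card_nsmul_eq_zero'
  rw [← QuotientAddGroup.mk_nsmul, QuotientAddGroup.eq_zero_iff] at h1
  have h2 : (k + 1) • (Nat.card (N ⧸ P k) • x) ∈ M := h1
  rwa [smul_smul] at h2

/-- A closed subgroup that is torsion modulo every closed `Gδ` subgroup is bounded. -/
theorem exists_bound [CompactSpace K] [T2Space K] {N : AddSubgroup K}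
    (hN : IsClosed (N : Set K))
    (h : ∀ M : AddSubgroup K, GSub M → ∀ x ∈ N, ∃ k : ℕ, 0 < k ∧ k • x ∈ M) :
    ∃ n : ℕ, 0 < n ∧ ∀ x ∈ N, n • x = 0 := by
  by_contra hcon
  push Not at hcon
  choose! x hxN hx using fun n : ℕ => hcon (n.factorial) n.factorial_pos
  choose M hM hxM using fun n => exists_gsub_notMem (hx n)
  have hG : GSub (⨅ n, M n) := GSub.iInf hM
  obtain ⟨m, hm, hmN⟩ := exists_bound_mod hN hG.1 (h _ hG)
  apply hxM m
  have h1 : m • x m ∈ M m := (AddSubgroup.mem_iInf.1 (hmN _ (hxN m))) m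
  obtain ⟨l, hl⟩ := Nat.dvd_factorial hm le_rfl
  rw [hl, mul_comm, mul_smul]
  exact (M m).nsmul_mem h1 l

end Pool.Agent.MP_f23337_gt
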