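import Pool.Agent.Lib.MP_f23337_gt.Indep

/-!
The embedding lemma: an abelian group with enough independent elements of full order carries a
Hausdorff group topology in which every sequence of nonempty open sets is met by one compact set.
-/

set_option autoImplicit false

namespace Pool.Agent.MP_f23337_gt

open Set Cardinal

universe u v w

/-- Every sequence of nonempty open sets is met by a single compact set. -/
def CompactHit (X : Type u) [TopologicalSpace X] : Prop :=
  ∀ U : ℕ → Set X, (∀ n, IsOpen (U n)) → (∀ n, (U n).Nonempty) →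
    ∃ K : Set X, IsCompact K ∧ ∀ n, (K ∩ U n).Nonempty

/-- The group carries a Hausdorff group topology with the compact hitting property. -/
def GoodGroup (G : Type u) [AddCommGroup G] : Prop :=
  ∃ t : TopologicalSpace G, @IsTopologicalAddGroup G t _ ∧ @T2Space G t ∧ @CompactHit G t

/-- Elements of every prescribed order in the circle (order zero means infinite order). -/
theorem exists_addOrderOf_circle (d : ℕ) : ∃ t : UnitAddCircle, addOrderOf t = d := by
  rcases Nat.eq_zero_or_pos d with rfl | hd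
  · refine ⟨((Real.sqrt 2 : ℝ) : UnitAddCircle), ?_⟩
    rw [addOrderOf_eq_zero_iff]
    rw [AddCircle.isOfFinAddOrder_iff_exists_rat_eq_div]
    rintro ⟨q, hq⟩
    exact irrational_sqrt_two ⟨q, by simpa using hq⟩
  · exact ⟨_, AddCircle.addOrderOf_period_div (p := (1 : ℝ)) hd⟩

/-- A continuous map from the Cantor space onto the sequences of `n`-torsion points of the
circle. -/
theorem exists_cantor_onto (n : ℕ) :
    ∃ q : (ℕ → Bool) → (ℕ → UnitAddCircle), Continuous q ∧ (∀ u k, n • q u k = 0) ∧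
      ∀ v : ℕ → UnitAddCircle, (∀ k, n • v k = 0) → ∃ u, q u = v := by
  let X : Set (ℕ → UnitAddCircle) := {v | ∀ k, n • v k = 0}
  have hX : IsClosed X := by
    have : X = ⋂ k, {v : ℕ → UnitAddCircle | n • v k = 0} := by
      ext v; simp [X]
    rw [this]
    refine isClosed_iInter fun k => ?_
    exact isClosed_eq ((continuous_nsmul n).comp (continuous_apply k)) continuous_const
  have hcomp : CompactSpace X := isCompact_iff_compactSpace.1 hX.isCompact
  have hne : Nonempty X := ⟨⟨0, fun k => by simp⟩⟩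
  let : MetricSpace (ℕ → UnitAddCircle) := TopologicalSpace.metrizableSpaceMetric _
  obtain ⟨f, hf, hsurj⟩ := exists_nat_bool_continuous_surjective_of_compact X
  refine ⟨fun u => (f u : ℕ → UnitAddCircle), continuous_subtype_val.comp hf,
    fun u k => (f u).2 k, fun v hv => ?_⟩
  obtain ⟨u, hu⟩ := hsurj ⟨v, hv⟩
  exact ⟨u, congrArg Subtype.val hu⟩

section Main

variable {M : Type u} {J : Type u} {F : Type u}

/-- Index type of the prescribed family. -/
abbrev Idx (F : Type u) : Type u := F × (ℕ → ℝ) × (ℕ → Bool)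

/-- The codes of the indices as predicates on `J ⊕ ℕ`. -/
def code (ι₀ : (F × (ℕ → ℝ)) ⊕ M → Set J) : Idx F ⊕ M → J ⊕ ℕ → Prop
  | Sum.inl (f, a, _), Sum.inl j => j ∈ ι₀ (Sum.inl (f, a))
  | Sum.inl (_, _, u), Sum.inr k => u k = true
  | Sum.inr m, Sum.inl j => j ∈ ι₀ (Sum.inr m)
  | Sum.inr _, Sum.inr _ => False

theorem code_injective {ι₀ : (F × (ℕ → ℝ)) ⊕ M → Set J} (h : Function.Injective ι₀) :
    Function.Injective (code ι₀) := by
  intro x y hxy
  have hl : ∀ j, code ι₀ x (Sum.inl j) ↔ code ι₀ y (Sum.inl j) := fun j => by rw [hxy]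
  have hr : ∀ k, code ι₀ x (Sum.inr k) ↔ code ι₀ y (Sum.inr k) := fun k => by rw [hxy]
  match x, y, hl, hr with
  | Sum.inl (f, a, u), Sum.inl (f', a', u'), hl, hr =>
    have h1 : ι₀ (Sum.inl (f, a)) = ι₀ (Sum.inl (f', a')) := Set.ext hl
    have h2 := h h1
    simp only [Sum.inl.injEq, Prod.mk.injEq] at h2
    obtain ⟨rfl, rfl⟩ := h2
    have h3 : u = u' := by
      funext k
      have := hr k
      simp only [code] at this
      cases hu : u k <;> cases hu' : u' k <;> simp_all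
    rw [h3]
  | Sum.inl (f, a, u), Sum.inr m, hl, _ =>
    have h1 : ι₀ (Sum.inl (f, a)) = ι₀ (Sum.inr m) := Set.ext hl
    exact absurd (h h1) (by simp)
  | Sum.inr m, Sum.inl (f, a, u), hl, _ =>
    have h1 : ι₀ (Sum.inr m) = ι₀ (Sum.inl (f, a)) := Set.ext hl
    exact absurd (h h1) (by simp)
  | Sum.inr m, Sum.inr m', hl, _ =>
    have h1 : ι₀ (Sum.inr m) = ι₀ (Sum.inr m') := Set.ext hl
    have h2 := h h1
    simp only [Sum.inr.injEq] at h2
    rw [h2]

/-- Coordinates. -/
abbrev Crd (J : Type u) : Type u := Finset (J ⊕ ℕ) × Finset (J ⊕ ℕ)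

open Classical in
/-- The generic value at the coordinate `p` of an index with code `C` and weight `t`. -/
noncomputable def gen (C : J ⊕ ℕ → Prop) (t : UnitAddCircle) (p : Crd J) : UnitAddCircle :=
  if ∀ b ∈ p.1, (C b ↔ b ∈ p.2) then t else 0

open Classical in
/-- The values of the embedding on the indices. -/
noncomputable def val (ι₀ : (F × (ℕ → ℝ)) ⊕ M → Set J) (t : Idx F ⊕ M → UnitAddCircle)
    (q : (ℕ → Bool) → (ℕ → UnitAddCircle)) (φ : F → Crd J → ℕ) :
    Idx F ⊕ M → Crd J × ℝ → UnitAddCircle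
  | Sum.inl (f, a, u), (p, γ) =>
    if h : ∃ k, a k = γ then q u (Nat.pair (φ f p) (Nat.find h))
    else gen (code ι₀ (Sum.inl (f, a, u))) (t (Sum.inl (f, a, u))) p
  | Sum.inr m, (p, _) => gen (code ι₀ (Sum.inr m)) (t (Sum.inr m)) p

theorem zsmul_gen {C : J ⊕ ℕ → Prop} {t : UnitAddCircle} {p : Crd J} {k : ℤ}
    (h : k • t = 0) : k • gen C t p = 0 := by
  unfold gen
  split_ifs
  · exact h
  · exact smul_zero k

theorem exists_coord {C : Idx F ⊕ M → J ⊕ ℕ → Prop} (hC : Function.Injective C)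
    (t : Idx F ⊕ M → UnitAddCircle) (s : Finset (Idx F ⊕ M)) (i : Idx F ⊕ M) :
    ∃ p : Crd J, gen (C i) (t i) p = t i ∧ ∀ j ∈ s, j ≠ i → gen (C j) (t j) p = 0 := by
  classical
  have h1 : ∀ j : Idx F ⊕ M, j ≠ i → ∃ b, ¬(C j b ↔ C i b) := by
    intro j hj
    by_contra hcon
    push Not at hcon
    exact hj (hC (funext fun b => propext (hcon b)))
  have h2 : ∀ j : Idx F ⊕ M, ∃ B : Finset (J ⊕ ℕ), j ≠ i → ∃ b ∈ B, ¬(C j b ↔ C i b) := by
    intro j
    by_cases hj : j = i
    · exact ⟨∅, fun h => absurd hj h⟩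
    · obtain ⟨b, hb⟩ := h1 j hj
      exact ⟨{b}, fun _ => ⟨b, Finset.mem_singleton_self b, hb⟩⟩
  choose B hB using h2
  let U : Finset (J ⊕ ℕ) := s.biUnion B
  refine ⟨(U, U.filter (fun b => C i b)), ?_, ?_⟩
  · unfold gen
    rw [if_pos]
    intro b hb
    simp only [Finset.mem_filter]
    exact ⟨fun h => ⟨hb, h⟩, fun h => h.2⟩
  · intro j hj hji
    unfold gen
    rw [if_neg]
    intro hcon
    obtain ⟨b, hb, hbb⟩ := hB j hji
    have hbU : b ∈ U := Finset.mem_biUnion.2 ⟨j, hj, hb⟩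
    apply hbb
    have := hcon b hbU
    simp only [Finset.mem_filter] at this
    rw [this]
    exact ⟨fun h => h.2, fun h => ⟨hbU, h⟩⟩

/-- A real number outside all the sequences of finitely many indices. -/
theorem exists_real_avoid (s : Finset (Idx F ⊕ M)) :
    ∃ γ : ℝ, ∀ f a u, Sum.inl (f, a, u) ∈ s → ¬ ∃ k, a k = γ := by
  classical
  let R : Idx F ⊕ M → Set ℝ := fun x => match x with
    | Sum.inl (_, a, _) => Set.range a
    | Sum.inr _ => ∅
  have hR : (⋃ x ∈ s, R x).Countable := by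
    refine Set.Countable.biUnion s.countable_toSet fun x _ => ?_
    match x with
    | Sum.inl (_, a, _) => exact Set.countable_range a
    | Sum.inr _ => exact Set.countable_empty
  have hne : (⋃ x ∈ s, R x) ≠ Set.univ := by
    intro h
    rw [h] at hR
    exact Cardinal.not_countable_real hR
  obtain ⟨γ, hγ⟩ := (Set.ne_univ_iff_exists_notMem _).1 hne
  refine ⟨γ, fun f a u hx h => hγ ?_⟩
  exact Set.mem_biUnion (x := Sum.inl (f, a, u)) hx h

theorem mk_sum_le [Infinite J] (hMJ : #M ≤ 2 ^ #J) (hFJ : #F ≤ 2 ^ #J) :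
    #((F × (ℕ → ℝ)) ⊕ M) ≤ #(Set J) := by
  have hJ : ℵ₀ ≤ #J := aleph0_le_mk J
  have hc : (𝔠 : Cardinal.{u}) ≤ 2 ^ #J := by
    rw [← two_power_aleph0]
    exact Cardinal.power_le_power_left two_ne_zero hJ
  have hinf : ℵ₀ ≤ 2 ^ #J := hJ.trans (Cardinal.cantor _).le
  rw [Cardinal.mk_set, Cardinal.mk_sum, Cardinal.mk_prod]
  simp only [Cardinal.mk_pi, Cardinal.prod_const, Cardinal.mk_real, Cardinal.lift_id,
    Cardinal.lift_continuum, Cardinal.mk_nat, Cardinal.lift_aleph0,
    Cardinal.lift_uzero, Cardinal.lift_power]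
  refine Cardinal.add_le_of_le hinf ?_ ?_
  · refine Cardinal.mul_le_of_le hinf ?_ ?_
    · simpa using hFJ
    · simpa using hc
  · simpa using hMJ

theorem mk_crd [Infinite J] : #(Crd J) = #J := by
  have hJ : ℵ₀ ≤ #J := aleph0_le_mk J
  rw [Cardinal.mk_prod]
  simp only [Cardinal.lift_id]
  rw [Cardinal.mk_finset_of_infinite, Cardinal.mk_sum]
  simp only [Cardinal.lift_uzero, Cardinal.mk_nat, Cardinal.lift_aleph0]
  rw [Cardinal.add_eq_left hJ hJ, Cardinal.mul_eq_self hJ]

theorem continuous_gen_code (ι₀ : (F × (ℕ → ℝ)) ⊕ M → Set J) (f : F) (a : ℕ → ℝ)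
    (t : UnitAddCircle) (p : Crd J) :
    Continuous fun u : ℕ → Bool => gen (code ι₀ (Sum.inl (f, a, u))) t p := by
  classical
  unfold gen
  have hclopen : IsClopen {u : ℕ → Bool |
      ∀ b ∈ p.1, (code ι₀ (Sum.inl (f, a, u)) b ↔ b ∈ p.2)} := by
    have : {u : ℕ → Bool | ∀ b ∈ p.1, (code ι₀ (Sum.inl (f, a, u)) b ↔ b ∈ p.2)} =
        ⋂ b ∈ p.1, {u : ℕ → Bool | code ι₀ (Sum.inl (f, a, u)) b ↔ b ∈ p.2} := by
      ext u
      simp
    rw [this]
    refine Set.Finite.isClopen_biInter p.1.finite_toSet fun b _ => ?_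
    rcases b with j | k
    · have h1 : {u : ℕ → Bool | code ι₀ (Sum.inl (f, a, u)) (Sum.inl j) ↔ Sum.inl j ∈ p.2} =
          {_u : ℕ → Bool | j ∈ ι₀ (Sum.inl (f, a)) ↔ Sum.inl j ∈ p.2} := rfl
      rw [h1]
      by_cases h : (j ∈ ι₀ (Sum.inl (f, a)) ↔ Sum.inl j ∈ p.2)
      · simp only [h, Set.setOf_true]
        exact isClopen_univ
      · simp only [h, Set.setOf_false]
        exact isClopen_empty
    · have h1 : {u : ℕ → Bool | code ι₀ (Sum.inl (f, a, u)) (Sum.inr k) ↔ Sum.inr k ∈ p.2} =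
          (fun u : ℕ → Bool => u k) ⁻¹' {b | b = true ↔ Sum.inr k ∈ p.2} := rfl
      rw [h1]
      exact (isClopen_discrete _).preimage (continuous_apply k)
  refine Continuous.if ?_ continuous_const continuous_const
  intro u hu
  rw [hclopen.frontier_eq] at hu
  exact absurd hu (Set.notMem_empty u)

theorem goodGroup_of_family [Infinite J] [AddCommGroup M] (n : ℕ) (hn : ∀ m : M, n • m = 0)
    (hMJ : #M ≤ 2 ^ #J) (hFJ : #F ≤ 2 ^ #J) (φ : F → J → ℕ)
    (hφ : ∀ A : Set J, A.Countable → ∃ f, Set.InjOn (φ f) A)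
    (e : Idx F → M) (he : IndepOn e Set.univ) (ho : ∀ y, addOrderOf (e y) = n) :
    GoodGroup M := by
  classical
  obtain ⟨ι₀, hι₀⟩ : ∃ ι₀ : (F × (ℕ → ℝ)) ⊕ M → Set J, Function.Injective ι₀ := by
    obtain ⟨ι⟩ := Cardinal.le_def _ _ |>.1 (mk_sum_le hMJ hFJ)
    exact ⟨ι, ι.injective⟩
  obtain ⟨ψ⟩ : Nonempty (Crd J ≃ J) := Cardinal.eq.1 mk_crd
  let E : Idx F ⊕ M → M := Sum.elim e id
  have h0 : IndepOn E (Set.range Sum.inl) := by
    rw [← Set.image_univ]
    exact IndepOn.image he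
  obtain ⟨S, hS0, hS, hess⟩ := exists_maximal_indepOn E _ h0
  choose τ hτ using exists_addOrderOf_circle
  let t : Idx F ⊕ M → UnitAddCircle := fun x => τ (addOrderOf (E x))
  have ht : ∀ x, ∀ k : ℤ, k • E x = 0 ↔ k • t x = 0 := by
    intro x k
    rw [← addOrderOf_dvd_iff_zsmul_eq_zero, ← addOrderOf_dvd_iff_zsmul_eq_zero, hτ]
  obtain ⟨q, hqc, hqn, hqs⟩ := exists_cantor_onto n
  let Φ : Idx F ⊕ M → Crd J × ℝ → UnitAddCircle := val ι₀ t q (fun f p => φ f (ψ p))
  have hΦ : ∀ i, ∀ k : ℤ, k • E i = 0 → ∀ x, k • Φ i x = 0 := by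
    rintro (⟨f, a, u⟩ | m) k hk ⟨p, γ⟩
    · change k • (if h : ∃ k, a k = γ then q u (Nat.pair (φ f (ψ p)) (Nat.find h))
        else gen (code ι₀ (Sum.inl (f, a, u))) (t (Sum.inl (f, a, u))) p) = 0
      split_ifs with h
      · have hdvd : (n : ℤ) ∣ k := by
          rw [← ho (f, a, u), addOrderOf_dvd_iff_zsmul_eq_zero]
          exact hk
        obtain ⟨l, rfl⟩ := hdvd
        rw [mul_comm, mul_smul, natCast_zsmul, hqn, smul_zero]
      · exact zsmul_gen ((ht _ _).1 hk)
    · change k • gen (code ι₀ (Sum.inr m)) (t (Sum.inr m)) p = 0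
      exact zsmul_gen ((ht _ _).1 hk)
  have hhom : ∀ x : Crd J × ℝ, ∃ g : M →+ UnitAddCircle, ∀ i ∈ S, g (E i) = Φ i x :=
    fun x => exists_hom_of_indepOn hS (fun i => Φ i x) (fun i _ k hk => hΦ i k hk x)
  choose g hg using hhom
  let G : M →+ (Crd J × ℝ → UnitAddCircle) := AddMonoidHom.pi g
  have hGE : ∀ i ∈ S, G (E i) = Φ i := fun i hi => funext fun x => hg x i hi
  have hGe : ∀ y, G (e y) = Φ (Sum.inl y) := fun y => hGE (Sum.inl y) (hS0 ⟨y, rfl⟩)
  have hGinj : Function.Injective G := by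
    refine injective_of_essential (E := E) (S := S) (fun m hm => hess (Sum.inr m) hm) G ?_
    intro s hs c hc i hi
    obtain ⟨p, hp1, hp2⟩ := exists_coord (code_injective hι₀) t s i
    obtain ⟨γ, hγ⟩ := exists_real_avoid s
    have hval : ∀ j ∈ s, Φ j (p, γ) = gen (code ι₀ j) (t j) p := by
      rintro (⟨f, a, u⟩ | m) hj
      · exact dif_neg (hγ f a u hj)
      · rfl
    have h1 : ∑ j ∈ s, c j • Φ j (p, γ) = 0 := by
      have h2 := congrFun hc (p, γ)
      rw [Finset.sum_apply] at h2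
      refine Eq.trans ?_ h2
      refine Finset.sum_congr rfl fun j hj => ?_
      rw [Pi.smul_apply, hGE j (hs hj)]
    rw [Finset.sum_eq_single_of_mem i hi] at h1
    · rw [hval i hi, hp1] at h1
      exact (ht i _).2 h1
    · intro j hj hji
      rw [hval j hj, hp2 j hj hji, smul_zero]
  let T : TopologicalSpace M := TopologicalSpace.induced G inferInstance
  refine ⟨T, topologicalAddGroup_induced G,
    T2Space.of_injective_continuous hGinj continuous_induced_dom, ?_⟩
  intro U hUo hUne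
  choose m hm using hUne
  have hO : ∀ k, ∃ I : Finset (Crd J × ℝ), ∀ m', (∀ i ∈ I, G m' i = G (m k) i) → m' ∈ U k := by
    intro k
    obtain ⟨O, hO, hOU⟩ := isOpen_induced_iff.1 (hUo k)
    have hmO : G (m k) ∈ O := by
      have := hm k
      rw [← hOU] at this
      exact this
    obtain ⟨I, u, hIu, hsub⟩ := isOpen_pi_iff.1 hO _ hmO
    refine ⟨I, fun m' hm' => ?_⟩
    rw [← hOU]
    apply hsub
    intro i hi
    rw [hm' i hi]
    exact (hIu i hi).2
  choose I hI using hO
  have hAc : (⋃ k, (↑(I k) : Set (Crd J × ℝ))).Countable :=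
    Set.countable_iUnion fun k => (I k).countable_toSet
  set A : Set (Crd J × ℝ) := ⋃ k, (↑(I k) : Set (Crd J × ℝ)) with hA
  obtain ⟨f, hf⟩ := hφ (ψ '' (Prod.fst '' A)) ((hAc.image _).image _)
  obtain ⟨a, ha⟩ : ∃ a : ℕ → ℝ, Prod.snd '' A ⊆ Set.range a := by
    rcases (Prod.snd '' A).eq_empty_or_nonempty with h | h
    · exact ⟨fun _ => 0, by rw [h]; exact Set.empty_subset _⟩
    · obtain ⟨a, ha⟩ := (hAc.image Prod.snd).exists_eq_range h
      exact ⟨a, ha.le⟩
  have haA : ∀ x ∈ A, ∃ k, a k = x.2 := fun x hx => ha ⟨x, hx, rfl⟩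
  let nu : Crd J × ℝ → ℕ := fun x =>
    if h : ∃ k, a k = x.2 then Nat.pair (φ f (ψ x.1)) (Nat.find h) else 0
  have hnu : Set.InjOn nu A := by
    intro x hx y hy hxy
    have hx' := haA x hx
    have hy' := haA y hy
    simp only [nu, dif_pos hx', dif_pos hy', Nat.pair_eq_pair] at hxy
    have h1 : x.1 = y.1 := by
      apply ψ.injective
      exact hf ⟨x.1, ⟨x, hx, rfl⟩, rfl⟩ ⟨y.1, ⟨y, hy, rfl⟩, rfl⟩ hxy.1
    have h2 : x.2 = y.2 := by
      rw [← Nat.find_spec hx', hxy.2, Nat.find_spec hy']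
    exact Prod.ext h1 h2
  -- solve for the Cantor parameter
  have hsolve : ∀ k, ∃ u, e (f, a, u) ∈ U k := by
    intro k
    let v : ℕ → UnitAddCircle := fun N =>
      if h : ∃ x ∈ A, nu x = N then G (m k) h.choose else 0
    have hv : ∀ x ∈ A, v (nu x) = G (m k) x := by
      intro x hx
      have h : ∃ y ∈ A, nu y = nu x := ⟨x, hx, rfl⟩
      simp only [v, dif_pos h]
      rw [hnu h.choose_spec.1 hx h.choose_spec.2]
    have hvn : ∀ N, n • v N = 0 := by
      intro N
      simp only [v]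
      split_ifs with h
      · change n • (G (m k)) h.choose = 0
        have : n • G (m k) = 0 := by rw [← map_nsmul, hn, map_zero]
        exact congrFun this _
      · exact smul_zero n
    obtain ⟨u, hu⟩ := hqs v hvn
    refine ⟨u, hI k _ fun x hx => ?_⟩
    have hxA : x ∈ A := Set.mem_iUnion.2 ⟨k, hx⟩
    rw [hGe, ← hv x hxA, ← hu]
    obtain ⟨p, γ⟩ := x
    have h' : ∃ k, a k = γ := haA _ hxA
    change (if h : ∃ k, a k = γ then q u (Nat.pair (φ f (ψ p)) (Nat.find h))
        else gen (code ι₀ (Sum.inl (f, a, u))) (t (Sum.inl (f, a, u))) p) = q u (nu (p, γ))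
    simp only [nu, dif_pos h']
  choose u hu using hsolve
  refine ⟨Set.range fun u => e (f, a, u), ?_, fun k => ⟨_, ⟨u k, rfl⟩, hu k⟩⟩
  refine isCompact_range ?_
  rw [continuous_induced_rng]
  refine continuous_pi ?_
  rintro ⟨p, γ⟩
  have hfun : (fun u => G (e (f, a, u)) (p, γ)) = fun u =>
      if h : ∃ k, a k = γ then q u (Nat.pair (φ f (ψ p)) (Nat.find h))
        else gen (code ι₀ (Sum.inl (f, a, u))) (τ n) p := by
    funext u
    rw [hGe]
    have : t (Sum.inl (f, a, u)) = τ n := by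
      change τ (addOrderOf (e (f, a, u))) = τ n
      rw [ho]
    rw [← this]
    rfl
  change Continuous fun u => G (e (f, a, u)) (p, γ)
  rw [hfun]
  by_cases h : ∃ k, a k = γ
  · simp only [dif_pos h]
    exact (continuous_apply _).comp hqc
  · simp only [dif_neg h]
    exact continuous_gen_code ι₀ f a (τ n) p

end Main

end Pool.Agent.MP_f23337_gt
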