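import Mathlib

/-!
A fusion argument: continuum many elements of a compact abelian group that are pairwise distinct
modulo every member of an increasing sequence of closed subgroups that are not open.
-/

set_option autoImplicit false

namespace Pool.Agent.MP_f23337_gt

open Set Topology

universe u v w

variable {K : Type u} [AddCommGroup K] [TopologicalSpace K] [IsTopologicalAddGroup K]

theorem dense_compl_coset {C : AddSubgroup K} (hC : ¬ IsOpen (C : Set K)) (d : K) :
    Dense {g : K | d + g ∉ C} ∧ Dense {g : K | d - g ∉ C} := by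
  constructor
  · have : {g : K | d + g ∉ C} = {g : K | d + g ∈ C}ᶜ := rfl
    rw [this, ← interior_eq_empty_iff_dense_compl, Set.eq_empty_iff_forall_notMem]
    intro g hg
    apply hC
    rw [mem_interior_iff_mem_nhds] at hg
    have h1 : Filter.Tendsto (fun y : K => y - d) (𝓝 (d + g)) (𝓝 g) := by
      have hcont : Continuous fun y : K => y - d := continuous_id.sub continuous_const
      have := hcont.tendsto (d + g)
      rwa [add_sub_cancel_left] at this
    refine C.isOpen_of_mem_nhds (g := d + g) ?_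
    filter_upwards [h1 hg] with y hy
    have h2 : d + (y - d) ∈ C := hy
    rwa [add_sub_cancel] at h2
  · have : {g : K | d - g ∉ C} = {g : K | d - g ∈ C}ᶜ := rfl
    rw [this, ← interior_eq_empty_iff_dense_compl, Set.eq_empty_iff_forall_notMem]
    intro g hg
    apply hC
    rw [mem_interior_iff_mem_nhds] at hg
    have h1 : Filter.Tendsto (fun y : K => d - y) (𝓝 (d - g)) (𝓝 g) := by
      have hcont : Continuous fun y : K => d - y := continuous_const.sub continuous_id
      have := hcont.tendsto (d - g)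
      rwa [sub_sub_cancel] at this
    refine C.isOpen_of_mem_nhds (g := d - g) ?_
    filter_upwards [h1 hg] with y hy
    have h2 : d - (d - y) ∈ C := hy
    rwa [sub_sub_cancel] at h2

theorem exists_generic [CompactSpace K] [T2Space K] {C : ℕ → AddSubgroup K}
    (hCcl : ∀ n, IsClosed (C n : Set K)) (hC : ∀ n, ¬ IsOpen (C n : Set K)) (D : Finset K)
    {V : Set K} (hV : IsOpen V) (h0 : V.Nonempty) :
    ∃ g ∈ V, ∀ d ∈ D, ∀ n, d + g ∉ C n ∧ d - g ∉ C n := by
  have h1 : Dense (⋂ x : ℕ × D, {g : K | (x.2 : K) + g ∉ C x.1} ∩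
      {g : K | (x.2 : K) - g ∉ C x.1}) := by
    refine dense_iInter_of_isOpen ?_ ?_
    · rintro ⟨n, d⟩
      refine IsOpen.inter ?_ ?_
      · exact (hCcl n).isOpen_compl.preimage (continuous_const.add continuous_id)
      · exact (hCcl n).isOpen_compl.preimage (continuous_const.sub continuous_id)
    · rintro ⟨n, d⟩
      refine (dense_compl_coset (hC n) (d : K)).1.inter_of_isOpen_left
        (dense_compl_coset (hC n) (d : K)).2 ?_
      exact (hCcl n).isOpen_compl.preimage (continuous_const.add continuous_id)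
  obtain ⟨g, hgV, hg⟩ := h1.inter_open_nonempty V hV h0
  rw [Set.mem_iInter] at hg
  exact ⟨g, hgV, fun d hd n => hg ⟨n, ⟨d, hd⟩⟩⟩

theorem exists_step [CompactSpace K] [T2Space K] [DecidableEq K] {C : ℕ → AddSubgroup K}
    (hCcl : ∀ n, IsClosed (C n : Set K)) (hC : ∀ n, ¬ IsOpen (C n : Set K)) (l : ℕ)
    (D : Finset K) (V : Set K) (hV : IsOpen V) (h0 : (0 : K) ∈ V) (hD : ∀ d ∈ D, ∀ n, d ∉ C n) :
    ∃ (g : K) (D' : Finset K) (V' : Set K), IsOpen V' ∧ (0 : K) ∈ V' ∧
      (∀ d ∈ D', ∀ n, d ∉ C n) ∧ (∀ v ∈ closure V', v ∈ V ∧ g + v ∈ V) ∧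
      (∀ d ∈ D, d ∈ D') ∧ (∀ d ∈ insert 0 D, d + g ∈ D' ∧ d - g ∈ D') ∧
      ∀ d ∈ D', ∀ v ∈ V', ∀ w ∈ V', d + v - w ∉ C (l + 1) := by
  obtain ⟨g, hgV, hg⟩ := exists_generic hCcl hC (insert 0 D) hV ⟨0, h0⟩
  let D' : Finset K := D ∪ ((insert 0 D).image (fun d => d + g) ∪
    (insert 0 D).image (fun d => d - g))
  have hD' : ∀ d ∈ D', ∀ n, d ∉ C n := by
    intro d hd n
    rcases Finset.mem_union.1 hd with h | h
    · exact hD d h n
    · rcases Finset.mem_union.1 h with h | h
      · obtain ⟨e, he, rfl⟩ := Finset.mem_image.1 h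
        exact (hg e he n).1
      · obtain ⟨e, he, rfl⟩ := Finset.mem_image.1 h
        exact (hg e he n).2
  have hW : {v : K | v ∈ V ∧ g + v ∈ V} ∈ 𝓝 (0 : K) := by
    have hcont : Continuous fun v : K => g + v := continuous_const.add continuous_id
    refine (hV.inter (hV.preimage hcont)).mem_nhds ⟨h0, ?_⟩
    change g + 0 ∈ V
    rwa [add_zero]
  have hO : (⋂ d ∈ D', {u : K | d + u ∉ C (l + 1)}) ∈ 𝓝 (0 : K) := by
    refine (Filter.biInter_finset_mem D').2 fun d hd => ?_
    have hcont : Continuous fun v : K => d + v := continuous_const.add continuous_id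
    refine ((hCcl (l + 1)).isOpen_compl.preimage hcont).mem_nhds ?_
    change d + 0 ∉ C (l + 1)
    rw [add_zero]
    exact hD' d hd _
  obtain ⟨V₁, hV₁, hV₁O⟩ := exists_nhds_half_neg hO
  obtain ⟨F, hF, hFcl, hFsub⟩ := exists_mem_nhds_isClosed_subset (Filter.inter_mem hW hV₁)
  refine ⟨g, D', interior F, isOpen_interior, mem_interior_iff_mem_nhds.2 hF, hD', ?_, ?_, ?_, ?_⟩
  · intro v hv
    have : v ∈ F := closure_minimal interior_subset hFcl hv
    exact (hFsub this).1
  · intro d hd
    exact Finset.mem_union_left _ hd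
  · intro d hd
    exact ⟨Finset.mem_union_right _ (Finset.mem_union_left _ (Finset.mem_image_of_mem _ hd)),
      Finset.mem_union_right _ (Finset.mem_union_right _ (Finset.mem_image_of_mem _ hd))⟩
  · intro d hd v hv w hw
    have h1 := hV₁O v (hFsub (interior_subset hv)).2 w (hFsub (interior_subset hw)).2
    rw [Set.mem_iInter₂] at h1
    have h2 := h1 d hd
    rwa [add_sub_assoc]

/-- The fusion lemma. -/
theorem exists_fusion [CompactSpace K] [T2Space K] {C : ℕ → AddSubgroup K}
    (hmono : Monotone C) (hCcl : ∀ n, IsClosed (C n : Set K))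
    (hC : ∀ n, ¬ IsOpen (C n : Set K)) :
    ∃ φ : (ℕ → Bool) → K, ∀ ε ε', ε ≠ ε' → ∀ n, φ ε - φ ε' ∉ C n := by
  classical
  let St : Type u := {s : Finset K × Set K // IsOpen s.2 ∧ (0 : K) ∈ s.2 ∧
    ∀ d ∈ s.1, ∀ n, d ∉ C n}
  have hstep : ∀ (l : ℕ) (s : St), ∃ (g : K) (s' : St),
      (∀ v ∈ closure s'.1.2, v ∈ s.1.2 ∧ g + v ∈ s.1.2) ∧
      (∀ d ∈ s.1.1, d ∈ s'.1.1) ∧ (∀ d ∈ insert 0 s.1.1, d + g ∈ s'.1.1 ∧ d - g ∈ s'.1.1) ∧
      ∀ d ∈ s'.1.1, ∀ v ∈ s'.1.2, ∀ w ∈ s'.1.2, d + v - w ∉ C (l + 1) := by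
    rintro l ⟨⟨D, V⟩, hV, h0, hD⟩
    obtain ⟨g, D', V', h1, h2, h3, h4, h5, h6, h7⟩ := exists_step hCcl hC l D V hV h0 hD
    exact ⟨g, ⟨(D', V'), h1, h2, h3⟩, h4, h5, h6, h7⟩
  choose G next hcl hD hDg hsep using hstep
  let s₀ : St := ⟨(∅, Set.univ), isOpen_univ, Set.mem_univ _, fun d hd =>
    absurd hd (Finset.notMem_empty d)⟩
  let s : ℕ → St := fun n => Nat.rec s₀ (fun l s => next l s) n
  have hs : ∀ l, s (l + 1) = next l (s l) := fun l => rfl
  let g : ℕ → K := fun l => G l (s l)
  let σ : (ℕ → Bool) → ℕ → K := fun ε l => ∑ j ∈ Finset.range l, if ε j then g j else 0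
  have hσ : ∀ ε l, σ ε (l + 1) = σ ε l + if ε l then g l else 0 := fun ε l =>
    Finset.sum_range_succ _ _
  -- limit points
  have hlim : ∀ ε, ∃ x : K, ∀ l, x - σ ε l ∈ (s l).1.2 := by
    intro ε
    let t : ℕ → Set K := fun l => {x | x - σ ε l ∈ closure (s l).1.2}
    have hstep' : ∀ l x, x ∈ t (l + 1) → x - σ ε l ∈ (s l).1.2 := by
      intro l x hx
      have h1 : x - σ ε (l + 1) ∈ closure (next l (s l)).1.2 := hx
      have h2 := hcl l (s l) _ h1
      have h3 : x - σ ε l = (x - σ ε (l + 1)) + (if ε l then g l else 0) := by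
        rw [hσ]; abel
      rw [h3]
      cases hε : ε l with
      | true =>
        rw [if_pos rfl, add_comm]
        exact h2.2
      | false =>
        rw [if_neg (by simp), add_zero]
        exact h2.1
    have hcont : ∀ l, Continuous fun x : K => x - σ ε l := fun l =>
      continuous_id.sub continuous_const
    have htcl : ∀ l, IsClosed (t l) := fun l => isClosed_closure.preimage (hcont l)
    obtain ⟨x, hx⟩ := IsCompact.nonempty_iInter_of_sequence_nonempty_isCompact_isClosed t
      (fun l x hx => subset_closure (hstep' l x hx))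
      (fun l => ⟨σ ε l, subset_closure (by
        change σ ε l - σ ε l ∈ (s l).1.2
        rw [sub_self]
        exact (s l).2.2.1)⟩)
      (htcl 0).isCompact htcl
    rw [Set.mem_iInter] at hx
    exact ⟨x, fun l => hstep' l x (hx (l + 1))⟩
  choose φ hφ using hlim
  -- differences of partial sums
  have hdiff : ∀ ε ε' l, σ ε l - σ ε' l ∈ insert 0 (s l).1.1 ∧
      ((∃ j < l, ε j ≠ ε' j) → σ ε l - σ ε' l ∈ (s l).1.1) := by
    intro ε ε' l
    induction l with
    | zero =>
      refine ⟨?_, ?_⟩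
      · have : σ ε 0 - σ ε' 0 = 0 := by simp [σ]
        rw [this]
        exact Finset.mem_insert_self _ _
      · rintro ⟨j, hj, -⟩
        exact absurd hj (Nat.not_lt_zero j)
    | succ l ih =>
      obtain ⟨ih1, ih2⟩ := ih
      have hD' := hD l (s l)
      have hDg' := hDg l (s l)
      have hstep2 : σ ε (l + 1) - σ ε' (l + 1) = (σ ε l - σ ε' l) +
          ((if ε l then g l else 0) - (if ε' l then g l else 0)) := by
        rw [hσ, hσ]; abel
      by_cases heq : ε l = ε' l
      · have h1 : σ ε (l + 1) - σ ε' (l + 1) = σ ε l - σ ε' l := by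
          rw [hstep2, heq, sub_self, add_zero]
        rw [h1]
        refine ⟨?_, ?_⟩
        · rcases Finset.mem_insert.1 ih1 with h2 | h2
          · rw [h2]
            exact Finset.mem_insert_self _ _
          · exact Finset.mem_insert_of_mem (hD' _ h2)
        · rintro ⟨j, hj, hne⟩
          have hjl : j < l := by
            rcases Nat.lt_succ_iff_lt_or_eq.1 hj with h | h
            · exact h
            · exact absurd (h ▸ heq) hne
          exact hD' _ (ih2 ⟨j, hjl, hne⟩)
      · have h1 : σ ε (l + 1) - σ ε' (l + 1) ∈ (s (l + 1)).1.1 := by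
          rw [hstep2, hs]
          cases h2 : ε l with
          | true =>
            have h3 : ε' l = false := by
              cases h4 : ε' l with
              | true => exact absurd (h2.trans h4.symm) heq
              | false => rfl
            rw [h3, if_pos rfl, if_neg (by simp), sub_zero]
            exact (hDg' _ ih1).1
          | false =>
            have h3 : ε' l = true := by
              cases h4 : ε' l with
              | true => rfl
              | false => exact absurd (h2.trans h4.symm) heq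
            rw [h3, if_pos rfl, if_neg (by simp), zero_sub, ← sub_eq_add_neg]
            exact (hDg' _ ih1).2
        exact ⟨Finset.mem_insert_of_mem h1, fun _ => h1⟩
  refine ⟨φ, fun ε ε' hne n hmem => ?_⟩
  obtain ⟨j, hj⟩ := Function.ne_iff.1 hne
  let l := max n j
  have hjl : j < l + 1 := Nat.lt_succ_of_le (le_max_right n j)
  have hnl : n ≤ l + 1 := (le_max_left n j).trans (Nat.le_succ l)
  have h1 := (hdiff ε ε' (l + 1)).2 ⟨j, hjl, hj⟩
  have h2 := hsep l (s l) _ h1 _ (hφ ε (l + 1)) _ (hφ ε' (l + 1))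
  apply h2
  have h3 : σ ε (l + 1) - σ ε' (l + 1) + (φ ε - σ ε (l + 1)) - (φ ε' - σ ε' (l + 1)) =
      φ ε - φ ε' := by abel
  rw [h3]
  exact hmono hnl hmem

end Pool.Agent.MP_f23337_gt
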