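import Pool.Agent.Lib.MP_f23337_gt.Good

/-!
The algebraic reduction for groups that are not bounded.
-/

set_option autoImplicit false

namespace Pool.Agent.MP_f23337_gt

open Set Cardinal Submodule

universe u v w

/-- Large independent sets of elements of infinite order. -/
theorem exists_large_indep {G : Type u} [AddCommGroup G] {U V : Submodule ℤ G}
    (hUV : IsCompl U V) (d : ℕ) (hd : 0 < d) (hV : ∀ v ∈ V, d • v = 0)
    (hc : (𝔠 : Cardinal.{u}) ≤ #(G ⧸ AddCommGroup.torsion G)) :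
    ∃ B : Set U, IndepSet B ∧ (∀ b ∈ B, addOrderOf b = 0) ∧
      #(G ⧸ AddCommGroup.torsion G) ≤ #B := by
  classical
  let α : Type u := {x : U // addOrderOf x = 0}
  obtain ⟨S, -, hS, hmax⟩ := exists_maximal_indepOn (fun a : α => (a : U)) ∅
    (fun s hs c hc i hi => absurd (hs hi) (Set.notMem_empty i))
  set B : Set U := (fun a : α => (a : U)) '' S with hBdef
  have hB : IndepSet B := IndepOn.image (E := (id : U → U)) (φ := fun a : α => (a : U)) hS
  refine ⟨B, hB, ?_, ?_⟩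
  · rintro _ ⟨a, -, rfl⟩
    exact a.2
  -- every element has a nonzero multiple in the span of `B`
  have hmult : ∀ x : U, ∃ k : ℤ, k ≠ 0 ∧ k • x ∈ span ℤ B := by
    intro x
    by_cases hx : addOrderOf x = 0
    · have hx0 : ((⟨x, hx⟩ : α) : U) ≠ 0 := by
        intro h
        change x = 0 at h
        rw [h, addOrderOf_zero] at hx
        exact one_ne_zero hx
      obtain ⟨k, hk, hkm⟩ := hmax ⟨x, hx⟩ hx0
      exact ⟨k, fun h => hk (by rw [h, zero_smul]), hkm⟩
    · refine ⟨(addOrderOf x : ℤ), by exact_mod_cast hx, ?_⟩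
      rw [natCast_zsmul, addOrderOf_nsmul_eq_zero]
      exact zero_mem _
  have hmultG : ∀ g : G, ∃ k : ℤ, k ≠ 0 ∧ ∃ y ∈ span ℤ B, k • g = ((y : U) : G) := by
    intro g
    have hg : g ∈ U ⊔ V := by rw [hUV.sup_eq_top]; trivial
    obtain ⟨x, hx, v, hv, rfl⟩ := Submodule.mem_sup.1 hg
    obtain ⟨k, hk, hkm⟩ := hmult ⟨x, hx⟩
    refine ⟨(d : ℤ) * k, mul_ne_zero (by exact_mod_cast hd.ne') hk, (d : ℤ) • (k • ⟨x, hx⟩),
      Submodule.smul_mem _ _ hkm, ?_⟩
    rw [smul_add, mul_comm, mul_smul k (d : ℤ) v, natCast_zsmul v d, hV v hv, smul_zero, add_zero,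
      mul_comm, mul_smul]
    rfl
  choose k hk y hy hky using hmultG
  have hinj : Function.Injective
      (fun q : G ⧸ AddCommGroup.torsion G => ((k q.out, ⟨y q.out, hy q.out⟩) :
        ℤ × span ℤ B)) := by
    intro q q' hqq
    simp only [Prod.mk.injEq, Subtype.mk.injEq] at hqq
    obtain ⟨h1, h2⟩ := hqq
    have h3 : k q.out • (q.out - q'.out) = 0 := by
      rw [smul_sub, hky, h2, ← hky q'.out, h1, sub_self]
    have h4 : (q.out : G) - q'.out ∈ AddCommGroup.torsion G := by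
      change IsOfFinAddOrder _
      rw [isOfFinAddOrder_iff_zsmul_eq_zero]
      exact ⟨_, hk _, h3⟩
    rw [← q.out_eq', ← q'.out_eq']
    rw [eq_comm]
    change QuotientAddGroup.mk q'.out = QuotientAddGroup.mk q.out
    rw [QuotientAddGroup.eq, neg_add_eq_sub]
    exact h4
  have h5 := Cardinal.mk_le_of_injective hinj
  rw [Cardinal.mk_prod, Cardinal.mk_int, Cardinal.lift_aleph0, Cardinal.lift_uzero] at h5
  have h6 : (ℵ₀ : Cardinal.{u}) * #(span ℤ B) ≤ max #B ℵ₀ := by
    refine Cardinal.mul_le_of_le (le_max_right _ _) (le_max_right _ _) (mk_span_le B)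
  by_contra hcon
  have h7 : #B < #(G ⧸ AddCommGroup.torsion G) := not_le.1 hcon
  have h8 : ℵ₀ < #(G ⧸ AddCommGroup.torsion G) := Cardinal.aleph0_lt_continuum.trans_le hc
  exact absurd ((h5.trans h6).trans_lt (max_lt h7 h8)) (lt_irrefl _)

/-- The algebraic reduction in the presence of elements of infinite order. -/
theorem goodGroup_of_nontorsion (G : Type u) [AddCommGroup G] {J F : Type u} [Infinite J]
    (φ : F → J → ℕ) (hφ : OmegaInj φ) (hF : #F ≤ #(G ⧸ AddCommGroup.torsion G))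
    (hc : (𝔠 : Cardinal.{u}) ≤ #(G ⧸ AddCommGroup.torsion G))
    (n : ℕ) (hn : 0 < n) (hnJ : #(rng G n) ≤ 2 ^ #J)
    (hadm : ∀ m, 0 < m → (rng G m).Finite ∨ Adm #(rng G m)) : GoodGroup G := by
  classical
  set μ : Cardinal.{u} := Order.succ (2 ^ #J) with hμdef
  have hJ : ℵ₀ ≤ 2 ^ #J := (Cardinal.aleph0_le_mk J).trans (Cardinal.cantor _).le
  have hμ' : ℵ₀ < μ := Order.lt_succ_iff.2 hJ
  have hμ : ℵ₀ ≤ μ := hμ'.le
  have hex : ∃ d, 0 < d ∧ #(rng G d) < μ := ⟨n, hn, Order.lt_succ_iff.2 hnJ⟩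
  set d := Nat.find hex with hd
  obtain ⟨hd0, hdμ⟩ : 0 < d ∧ #(rng G d) < μ := Nat.find_spec hex
  obtain ⟨U, V, hUV, hUμ, hV⟩ := exists_split (A := G) d hd0 μ hμ hdμ (Or.inl hμ')
  have hdvd : ∀ m, 0 < m → #(rng G m) < μ → d ∣ m := by
    intro m hm hmμ
    have hg0 : 0 < Nat.gcd d m := Nat.gcd_pos_of_pos_left _ hd0
    have hgμ : #(rng G (Nat.gcd d m)) < μ := by
      refine lt_of_le_of_lt ?_ (Cardinal.mul_lt_of_lt hμ hdμ hmμ)
      rw [Cardinal.mul_def]
      refine Cardinal.mk_le_mk_of_subset (t := Set.range fun x : rng G d × rng G m =>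
        (x.1 : G) + (x.2 : G)) ?_ |>.trans Cardinal.mk_range_le
      rintro _ ⟨x, rfl⟩
      have hb := Nat.gcd_eq_gcd_ab d m
      refine ⟨(⟨d • ((Nat.gcdA d m) • x), _, rfl⟩, ⟨m • ((Nat.gcdB d m) • x), _, rfl⟩), ?_⟩
      change d • ((Nat.gcdA d m) • x) + m • ((Nat.gcdB d m) • x) = Nat.gcd d m • x
      rw [← natCast_zsmul, ← natCast_zsmul, ← natCast_zsmul, smul_smul, smul_smul, ← add_smul,
        ← hb]
    have : d ≤ Nat.gcd d m := Nat.find_min' hex ⟨hg0, hgμ⟩
    have h2 : Nat.gcd d m = d := le_antisymm (Nat.gcd_le_left _ hd0) this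
    rw [← h2]
    exact Nat.gcd_dvd_right d m
  have hVgood : GoodGroup V := by
    refine goodGroup_of_bounded d hd0 V (fun x => Subtype.ext (hV x x.2)) fun m hm => ?_
    by_cases hmμ : #(rng G m) < μ
    · left
      obtain ⟨m', rfl⟩ := hdvd m hm hmμ
      refine (Set.finite_singleton (0 : V)).subset ?_
      rintro _ ⟨x, rfl⟩
      apply Subtype.ext
      change (d * m') • (x : G) = 0
      rw [mul_comm, mul_smul, hV x x.2, smul_zero]
    · right
      have hmin : μ ≤ #(rng G m) := not_lt.1 hmμ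
      have h1 : #(rng U m) < μ := lt_of_le_of_lt (mk_rng_le U _) hUμ
      have h2 : μ ≤ #(rng V m) := by
        by_contra hcon
        have := Cardinal.mul_lt_of_lt hμ h1 (not_le.1 hcon)
        exact absurd (lt_of_le_of_lt (mk_rng_le_mul hUV m) this) (not_lt.2 hmin)
      have h3 : #(rng G m) = #(rng V m) := by
        refine le_antisymm ?_ (mk_rng_sub_le V _)
        refine (mk_rng_le_mul hUV m).trans ?_
        exact Cardinal.mul_le_of_le (hμ.trans h2) (h1.le.trans h2) le_rfl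
      rw [← h3]
      refine (hadm m hm).resolve_left fun hfin => ?_
      have := Cardinal.lt_aleph0_iff_set_finite.2 hfin
      exact absurd (this.trans_le hμ) (not_lt.2 hmin)
  refine GoodGroup.of_isCompl hUV ?_ hVgood
  obtain ⟨B, hB, hB0, hBcard⟩ := exists_large_indep hUV d hd0 hV hc
  exact goodGroup_of_indepSet 0 (fun m => zero_smul ℕ m) φ hφ (Order.lt_succ_iff.1 hUμ) B hB hB0
    (hF.trans hBcard) (hc.trans hBcard)

end Pool.Agent.MP_f23337_gt
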