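import Pool.Agent.Lib.MP_f23337_gt.Pseudo
import Pool.Agent.Lib.MP_f23337_gt.Chain
import Pool.Agent.Lib.MP_f23337_gt.Fusion
import Pool.Agent.Lib.MP_f23337_gt.Nontorsion

/-!
Cardinal data extracted from a pseudocompact group topology.
-/

set_option autoImplicit false

namespace Pool.Agent.MP_f23337_gt

open Set Topology Cardinal

universe u v w

section

variable {G : Type u} [AddCommGroup G] {K : Type u} [AddCommGroup K] [TopologicalSpace K]
  [IsTopologicalAddGroup K] [CompactSpace K] [T2Space K] (j : G →+ K)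

/-- The image of `j` meets every nonempty closed `Gδ` set. -/
def Hits : Prop := ∀ Z : Set K, IsClosed Z → IsGδ Z → Z.Nonempty → ∃ g, j g ∈ Z

variable {j}

omit [CompactSpace K] [T2Space K] in
theorem Hits.exists_sub_mem (hj : Hits j) {M : AddSubgroup K} (hM : GSub M) (x : K) :
    ∃ g, j g - x ∈ M := by
  have hcont : Continuous fun y : K => y - x := continuous_id.sub continuous_const
  exact hj ((fun y : K => y - x) ⁻¹' (M : Set K)) (hM.1.preimage hcont) (hM.2.preimage hcont)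
    ⟨x, by
      change x - x ∈ M
      rw [sub_self]
      exact M.zero_mem⟩

omit [T2Space K] in
theorem not_isOpen_of_injOn {M : AddSubgroup K} (f : ℕ → K)
    (hf : ∀ m n, m ≠ n → f m - f n ∉ M) : ¬ IsOpen (M : Set K) := by
  intro hM
  have hfin : Finite (K ⧸ M) := AddSubgroup.quotient_finite_of_isOpen M hM
  have hinj : Function.Injective (fun n => (QuotientAddGroup.mk (f n) : K ⧸ M)) := by
    intro m n hmn
    by_contra hne
    have h1 : (QuotientAddGroup.mk (f m) : K ⧸ M) = QuotientAddGroup.mk (f n) := hmn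
    rw [QuotientAddGroup.eq, neg_add_eq_sub] at h1
    exact hf n m (Ne.symm hne) h1
  exact not_injective_infinite_finite _ hinj

theorem continuum_le_of_infinite (hinj : Function.Injective j) (hj : Hits j) [Infinite G] :
    (𝔠 : Cardinal.{u}) ≤ #G := by
  classical
  obtain ⟨f⟩ : Nonempty (ℕ ↪ G) := ⟨Infinite.natEmbedding G⟩
  have hex : ∀ x : {x : ℕ × ℕ // x.1 ≠ x.2}, ∃ M : AddSubgroup K, GSub M ∧
      j (f x.1.1) - j (f x.1.2) ∉ M := by
    rintro ⟨⟨m, n⟩, hmn⟩
    refine exists_gsub_notMem fun h => hmn ?_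
    exact f.injective (hinj (sub_eq_zero.1 h))
  choose M hM hM2 using hex
  have hG : GSub (⨅ x, M x) := GSub.iInf hM
  have hopen : ¬ IsOpen ((⨅ x, M x : AddSubgroup K) : Set K) :=
    not_isOpen_of_injOn (fun n => j (f n)) fun m n hmn hmem =>
      hM2 ⟨(m, n), hmn⟩ (AddSubgroup.mem_iInf.1 hmem _)
  obtain ⟨φ, hφ⟩ := exists_fusion (C := fun _ => ⨅ x, M x) monotone_const (fun _ => hG.1)
    (fun _ => hopen)
  choose g hg using fun ε => hj.exists_sub_mem hG (φ ε)
  have hginj : Function.Injective g := by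
    intro ε ε' hεε
    by_contra hne
    apply hφ ε ε' hne 0
    have h1 : φ ε - φ ε' = (j (g ε') - φ ε') - (j (g ε) - φ ε) := by
      rw [hεε]; abel
    rw [h1]
    exact sub_mem (hg ε') (hg ε)
  have h2 := Cardinal.mk_le_of_injective
    (f := fun x : ULift.{u} (ℕ → Bool) => g x.down) (fun a b hab => ULift.ext _ _ (hginj hab))
  simpa using h2

theorem continuum_le_quotient (hinj : Function.Injective j) (hj : Hits j)
    (hnt : ∃ g : G, ¬ IsOfFinAddOrder g) :
    (𝔠 : Cardinal.{u}) ≤ #(G ⧸ AddCommGroup.torsion G) := by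
  classical
  obtain ⟨g₀, hg₀⟩ := hnt
  have hg₀' : ∀ k : ℕ, 0 < k → k • j g₀ ≠ 0 := by
    intro k hk h
    apply hg₀
    rw [isOfFinAddOrder_iff_nsmul_eq_zero]
    refine ⟨k, hk, hinj ?_⟩
    rw [map_nsmul, h, map_zero]
  have hex : ∀ k : ℕ, ∃ M : AddSubgroup K, GSub M ∧ (k + 1) • j g₀ ∉ M := fun k =>
    exists_gsub_notMem (hg₀' (k + 1) (Nat.succ_pos k))
  choose M hM hM2 using hex
  have hG : GSub (⨅ x, M x) := GSub.iInf hM
  have hgM : ∀ k : ℕ, 0 < k → k • j g₀ ∉ (⨅ x, M x : AddSubgroup K) := by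
    intro k hk hmem
    have := AddSubgroup.mem_iInf.1 hmem (k - 1)
    apply hM2 (k - 1)
    rwa [Nat.sub_add_cancel hk]
  generalize (⨅ x, M x : AddSubgroup K) = L at hG hgM
  let C : ℕ → AddSubgroup K := fun n => L.comap (nsmulAddMonoidHom n.factorial)
  have hCmem : ∀ n x, x ∈ C n ↔ n.factorial • x ∈ L := fun n x => Iff.rfl
  have hmono : Monotone C := by
    intro m n hmn x hx
    rw [hCmem] at hx ⊢
    obtain ⟨l, hl⟩ := Nat.factorial_dvd_factorial hmn
    rw [hl, mul_comm, mul_smul]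
    exact L.nsmul_mem hx l
  have hCcl : ∀ n, IsClosed (C n : Set K) := fun n =>
    hG.1.preimage (continuous_nsmul n.factorial)
  have hCopen : ∀ n, ¬ IsOpen (C n : Set K) := by
    intro n
    refine not_isOpen_of_injOn (fun k => k • j g₀) ?_
    have key : ∀ k l : ℕ, k < l → l • j g₀ - k • j g₀ ∉ C n := by
      intro k l hkl hmem
      rw [hCmem] at hmem
      have h1 : l • j g₀ - k • j g₀ = (l - k) • j g₀ := by
        rw [sub_eq_iff_eq_add, ← add_smul, Nat.sub_add_cancel hkl.le]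
      rw [h1, smul_smul] at hmem
      exact hgM _ (Nat.mul_pos n.factorial_pos (Nat.sub_pos_of_lt hkl)) hmem
    intro k l hkl hmem
    rcases lt_or_gt_of_ne hkl with h | h
    · apply key k l h
      rw [← neg_sub]
      exact neg_mem hmem
    · exact key l k h hmem
  obtain ⟨φ, hφ⟩ := exists_fusion hmono hCcl hCopen
  choose g hg using fun ε => hj.exists_sub_mem hG (φ ε)
  have hginj : Function.Injective
      (fun ε => (QuotientAddGroup.mk (g ε) : G ⧸ AddCommGroup.torsion G)) := by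
    intro ε ε' hεε
    by_contra hne
    have h1 : (QuotientAddGroup.mk (g ε) : G ⧸ AddCommGroup.torsion G) =
      QuotientAddGroup.mk (g ε') := hεε
    rw [QuotientAddGroup.eq, neg_add_eq_sub] at h1
    have h2 : IsOfFinAddOrder (g ε' - g ε) := h1
    rw [isOfFinAddOrder_iff_nsmul_eq_zero] at h2
    obtain ⟨k, hk, hk0⟩ := h2
    apply hφ ε' ε (Ne.symm hne) k
    rw [hCmem]
    obtain ⟨l, hl⟩ := Nat.dvd_factorial hk le_rfl
    rw [hl, mul_comm, mul_smul]
    refine L.nsmul_mem ?_ l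
    have h3 : φ ε' - φ ε = (j (g ε) - φ ε) - (j (g ε') - φ ε') + j (g ε' - g ε) := by
      rw [map_sub]; abel
    rw [h3, smul_add, ← map_nsmul, hk0, map_zero, add_zero]
    exact L.nsmul_mem (sub_mem (hg ε) (hg ε')) k
  have h2 := Cardinal.mk_le_of_injective
    (f := fun x : ULift.{u} (ℕ → Bool) =>
      (QuotientAddGroup.mk (g x.down) : G ⧸ AddCommGroup.torsion G))
    (fun a b hab => ULift.ext _ _ (hginj hab))
  simpa using h2

/-- A torsion group of this kind is bounded. -/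
theorem exists_exponent (hinj : Function.Injective j) (hj : Hits j)
    (ht : ∀ g : G, IsOfFinAddOrder g) : ∃ n : ℕ, 0 < n ∧ ∀ g : G, n • g = 0 := by
  obtain ⟨n, hn, hn2⟩ := exists_bound (K := K) (N := ⊤) (by
      rw [AddSubgroup.coe_top]; exact isClosed_univ) (by
    intro M hM x _
    obtain ⟨g, hg⟩ := hj.exists_sub_mem hM x
    obtain ⟨k, hk, hk0⟩ := isOfFinAddOrder_iff_nsmul_eq_zero.1 (ht g)
    refine ⟨k, hk, ?_⟩
    have h1 : k • (j g - x) ∈ M := M.nsmul_mem hg k
    rw [smul_sub, ← map_nsmul, hk0, map_zero, zero_sub] at h1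
    exact neg_mem_iff.1 h1)
  refine ⟨n, hn, fun g => hinj ?_⟩
  rw [map_nsmul, hn2 _ (AddSubgroup.mem_top _), map_zero]

omit [T2Space K] in
/-- The separating family obtained from a chain of closed `Gδ` subgroups. -/
theorem exists_family (hj : Hits j) {ι : Type u} [LinearOrder ι] [WellFoundedLT ι]
    (M T : ι → AddSubgroup K) (hM : ∀ i, GSub (M i)) (hMT : ∀ i, M i ≤ T i) (S : Set ι)
    (hS : ∀ i ∈ S, ∃ c : K, (∀ j ∈ S, j < i → c ∈ M j) ∧ c ∉ T i) (hinf : Infinite S) :
    ∃ ψ : K → S → ℕ, (∀ x y, (∀ i, x - y ∈ T i) → ψ x = ψ y) ∧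
      ∀ A : Set S, A.Countable → ∃ g : G, Set.InjOn (ψ (j g)) A := by
  classical
  choose! c hc1 hc2 using hS
  have htv : ∀ i : S, ∃ h : K → Bool, (∀ x y, x - y ∈ T i → h x = h y) ∧
      ∀ x b, ∃ k : ℤ, h (x + k • c i) = b := fun i => exists_two_valued (T i) (hc2 i i.2)
  choose h hh hhc using htv
  have hsol : ∀ (A : Set S), A.Countable → ∀ z : S → Bool, ∃ g : G, ∀ i ∈ A, h i (j g) = z i := by
    intro A hA z
    obtain ⟨x, hx⟩ := exists_solution (fun i : S => M i) (fun i : S => T i)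
      (fun i => (hM i).1) (fun i => hMT i) (fun i : S => c i)
      (fun i k hki => hc1 i i.2 k k.2 hki) h hh hhc z
    have : Countable A := hA.to_subtype
    have hG : GSub (⨅ i : A, M i.1) := GSub.iInf fun i => hM i.1
    obtain ⟨g, hg⟩ := hj.exists_sub_mem hG x
    refine ⟨g, fun i hi => ?_⟩
    rw [hh i (j g) x (hMT i (AddSubgroup.mem_iInf.1 hg ⟨i, hi⟩))]
    exact hx i
  obtain ⟨e⟩ : Nonempty (S × ℕ ≃ S) := by
    rw [← Cardinal.eq, Cardinal.mk_prod]
    simp only [Cardinal.lift_uzero, Cardinal.mk_nat, Cardinal.lift_aleph0]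
    exact Cardinal.mul_aleph0_eq (Cardinal.aleph0_le_mk S)
  refine ⟨fun x s => if hk : ∃ k, h (e (s, k)) x = true then Nat.find hk else 0, ?_, ?_⟩
  · intro x y hxy
    funext s
    have h1 : ∀ k, h (e (s, k)) x = h (e (s, k)) y := fun k => hh _ _ _ (hxy _)
    simp only [h1]
  · intro A hA
    have : Countable A := hA.to_subtype
    obtain ⟨r, hr⟩ := Countable.exists_injective_nat A
    let z : S → Bool := fun i => decide (∃ hi : (e.symm i).1 ∈ A, (e.symm i).2 = r ⟨_, hi⟩)
    have hA' : (e '' (A ×ˢ (Set.univ : Set ℕ))).Countable :=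
      (hA.prod (Set.countable_univ)).image e
    obtain ⟨g, hg⟩ := hsol _ hA' z
    have hval : ∀ s (hs : s ∈ A), ∀ k, h (e (s, k)) (j g) = true ↔ k = r ⟨s, hs⟩ := by
      intro s hs k
      rw [hg (e (s, k)) ⟨(s, k), ⟨hs, Set.mem_univ k⟩, rfl⟩]
      simp only [z, Equiv.symm_apply_apply, decide_eq_true_eq]
      exact ⟨fun h => h.2, fun h => ⟨hs, h⟩⟩
    have hfind : ∀ s (hs : s ∈ A), (if hk : ∃ k, h (e (s, k)) (j g) = true then Nat.find hk
        else 0) = r ⟨s, hs⟩ := by
      intro s hs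
      have hk : ∃ k, h (e (s, k)) (j g) = true := ⟨_, (hval s hs _).2 rfl⟩
      rw [dif_pos hk]
      exact (hval s hs _).1 (Nat.find_spec hk)
    refine ⟨g, fun s hs s' hs' hss => ?_⟩
    have h1 := hss
    simp only [] at h1
    rw [hfind s hs, hfind s' hs'] at h1
    exact congrArg Subtype.val (hr h1)

theorem mk_classes_le (S : Type u) : #(S → ℕ → ℕ) ≤ 2 ^ (max #S ℵ₀) := by
  have h1 : #(S → ℕ → ℕ) = (𝔠 : Cardinal.{u}) ^ #S := by
    simp
  rw [h1, ← Cardinal.two_power_aleph0, ← Cardinal.power_mul]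
  refine Cardinal.power_le_power_left two_ne_zero ?_
  exact Cardinal.mul_le_of_le (le_max_right _ _) (le_max_right _ _) (le_max_left _ _)

/-- Separating families and cardinal bounds, in a form that covers both applications. -/
theorem exists_data (hj : Hits j) {ι : Type u} [LinearOrder ι] [WellFoundedLT ι]
    (M T : ι → AddSubgroup K) (hM : ∀ i, GSub (M i)) (hMT : ∀ i, M i ≤ T i) :
    ∃ (J : Type u) (N : AddSubgroup K) (ψ : K → J → ℕ), Infinite J ∧ IsClosed (N : Set K) ∧
      (∀ x ∈ N, ∀ i, x ∈ T i) ∧ (∀ x y, (∀ i, x - y ∈ T i) → ψ x = ψ y) ∧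
      (∀ A : Set J, A.Countable → ∃ g : G, Set.InjOn (ψ (j g)) A) ∧
      ∀ (X : Type u) (f : X → K), (∀ x y, f x - f y ∈ N → x = y) → #X ≤ 2 ^ #J := by
  classical
  obtain ⟨S, hS1, hS2⟩ := exists_good_set M T hMT
  choose cl hcl using fun i => exists_classes (hM i).2
  let N : AddSubgroup K := ⨅ i : S, M i
  have hNmem : ∀ x, x ∈ N ↔ ∀ i ∈ S, x ∈ M i := by
    intro x
    rw [AddSubgroup.mem_iInf]
    exact ⟨fun h i hi => h ⟨i, hi⟩, fun h i => h i i.2⟩
  have hNcl : IsClosed (N : Set K) := by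
    rw [AddSubgroup.coe_iInf]
    exact isClosed_iInter fun i => (hM i).1
  have hNT : ∀ x ∈ N, ∀ i, x ∈ T i := fun x hx => hS2 x ((hNmem x).1 hx)
  have hcard : ∀ (X : Type u) (f : X → K), (∀ x y, f x - f y ∈ N → x = y) →
      #X ≤ 2 ^ (max #S ℵ₀) := by
    intro X f hf
    refine le_trans ?_ (mk_classes_le S)
    refine Cardinal.mk_le_of_injective (f := fun x => fun i : S => cl i (f x)) ?_
    intro x y hxy
    apply hf
    rw [hNmem]
    intro i hi
    exact hcl i _ _ (congrFun hxy ⟨i, hi⟩)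
  by_cases hinf : Infinite S
  · obtain ⟨ψ, hψ1, hψ2⟩ := exists_family hj M T hM hMT S hS1 hinf
    refine ⟨S, N, ψ, hinf, hNcl, hNT, hψ1, hψ2, ?_⟩
    intro X f hf
    have := hcard X f hf
    rwa [max_eq_left (Cardinal.aleph0_le_mk S)] at this
  · have hfin : Finite S := not_infinite_iff_finite.1 hinf
    refine ⟨ULift.{u} ℕ, N, fun _ n => n.down, inferInstance, hNcl, hNT, fun _ _ _ => rfl,
      fun A _ => ⟨0, fun a _ b _ hab => ULift.ext _ _ hab⟩, ?_⟩
    intro X f hf
    have := hcard X f hf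
    rw [max_eq_right (Cardinal.lt_aleph0_of_finite S).le] at this
    simpa using this

/-- The cardinality of an infinite pseudocompact abelian group is admissible. -/
theorem adm_of_infinite (hinj : Function.Injective j) (hj : Hits j) [Infinite G] :
    Adm #G := by
  classical
  refine ⟨continuum_le_of_infinite hinj hj, ?_⟩
  let ι : Type u := {M : AddSubgroup K // GSub M}
  obtain ⟨_, _⟩ := exists_wellFoundedLT ι
  obtain ⟨J, N, ψ, hJ, -, hN, -, hψ, hcard⟩ := exists_data (G := G) (j := j) hj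
    (fun i : ι => i.1) (fun i : ι => i.1) (fun i => i.2) (fun _ => le_rfl)
  refine ⟨J, G, fun g => ψ (j g), hJ, hψ, le_rfl, hcard G j fun x y hxy => hinj ?_⟩
  by_contra hne
  obtain ⟨M, hM, hM2⟩ := exists_gsub_notMem (sub_ne_zero.2 hne)
  exact hM2 (hN _ hxy ⟨M, hM⟩)

/-- The subgroup of elements that are torsion modulo `M`. -/
def torMod (M : AddSubgroup K) : AddSubgroup K where
  carrier := {x | ∃ k : ℕ, 0 < k ∧ k • x ∈ M}
  zero_mem' := ⟨1, one_pos, by rw [smul_zero]; exact M.zero_mem⟩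
  neg_mem' := by
    rintro x ⟨k, hk, hx⟩
    exact ⟨k, hk, by rw [smul_neg]; exact neg_mem hx⟩
  add_mem' := by
    rintro x y ⟨k, hk, hx⟩ ⟨l, hl, hy⟩
    refine ⟨k * l, Nat.mul_pos hk hl, ?_⟩
    rw [smul_add]
    refine add_mem ?_ ?_
    · rw [mul_comm, mul_smul]
      exact M.nsmul_mem hx l
    · rw [mul_smul]
      exact M.nsmul_mem hy k

/-- The data of the nontorsion case. -/
theorem data_of_nontorsion (hinj : Function.Injective j) (hj : Hits j) :
    ∃ (J : Type u) (φ : (G ⧸ AddCommGroup.torsion G) → J → ℕ) (n : ℕ), Infinite J ∧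
      OmegaInj φ ∧ 0 < n ∧ #(rng G n) ≤ 2 ^ #J := by
  classical
  let ι : Type u := {M : AddSubgroup K // GSub M}
  obtain ⟨_, _⟩ := exists_wellFoundedLT ι
  have hMT : ∀ i : ι, i.1 ≤ torMod i.1 := fun i x hx => ⟨1, one_pos, by rwa [one_smul]⟩
  obtain ⟨J, N, ψ, hJ, hNcl, hN, hψT, hψ, hcard⟩ := exists_data (G := G) (j := j) hj
    (fun i : ι => i.1) (fun i : ι => torMod i.1) (fun i => i.2) hMT
  obtain ⟨n, hn, hnN⟩ := exists_bound hNcl (fun M hM x hx => hN x hx ⟨M, hM⟩)
  refine ⟨J, fun q => ψ (j q.out), n, hJ, ?_, hn, ?_⟩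
  · intro A hA
    obtain ⟨g, hg⟩ := hψ A hA
    refine ⟨QuotientAddGroup.mk g, ?_⟩
    have h1 : ψ (j (QuotientAddGroup.mk g : G ⧸ AddCommGroup.torsion G).out) = ψ (j g) := by
      refine hψT _ _ fun i => ?_
      have h2 : (QuotientAddGroup.mk (QuotientAddGroup.mk g : G ⧸ AddCommGroup.torsion G).out :
          G ⧸ AddCommGroup.torsion G) = QuotientAddGroup.mk g := QuotientAddGroup.out_eq' _
      rw [eq_comm, QuotientAddGroup.eq, neg_add_eq_sub] at h2
      have h3 : IsOfFinAddOrder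
        ((QuotientAddGroup.mk g : G ⧸ AddCommGroup.torsion G).out - g) := h2
      obtain ⟨k, hk, hk0⟩ := isOfFinAddOrder_iff_nsmul_eq_zero.1 h3
      refine ⟨k, hk, ?_⟩
      rw [← map_sub, ← map_nsmul, hk0, map_zero]
      exact AddSubgroup.zero_mem _
    change Set.InjOn (ψ (j (QuotientAddGroup.mk g : G ⧸ AddCommGroup.torsion G).out)) A
    rw [h1]
    exact hg
  · have hsec : ∀ y : rng G n, ∃ x : G, n • x = y := fun y => y.2
    choose σ hσ using hsec
    refine hcard _ (fun y => j (σ y)) fun y y' hyy => ?_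
    apply Subtype.ext
    rw [← hσ y, ← hσ y']
    have h1 := hnN _ hyy
    rw [← map_sub, ← map_nsmul] at h1
    have h2 : n • (σ y - σ y') = 0 := hinj (by rw [h1, map_zero])
    rwa [smul_sub, sub_eq_zero] at h2

end

end Pool.Agent.MP_f23337_gt
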