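import Pool.Agent.Lib.MP_f23337_gt.Bounded

/-!
The splitting lemma: if `d A` is small then `A` is the direct sum of a small subgroup and a
subgroup killed by `d`.
-/

set_option autoImplicit false

namespace Pool.Agent.MP_f23337_gt

open Set Cardinal Submodule

universe u v w

variable {A : Type u} [AddCommGroup A]

theorem IndepSet.disjoint_span {B B₁ B₂ : Set A} (hB : IndepSet B) (h₁ : B₁ ⊆ B) (h₂ : B₂ ⊆ B)
    (h : Disjoint B₁ B₂) : Disjoint (span ℤ B₁) (span ℤ B₂) := by
  classical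
  rw [Submodule.disjoint_def]
  intro x hx1 hx2
  rw [← Set.image_id B₁, Finsupp.mem_span_image_iff_linearCombination] at hx1
  rw [← Set.image_id B₂, Finsupp.mem_span_image_iff_linearCombination] at hx2
  obtain ⟨l₁, hl₁, hx1⟩ := hx1
  obtain ⟨l₂, hl₂, hx2⟩ := hx2
  rw [Finsupp.mem_supported] at hl₁ hl₂
  have h0 : Finsupp.linearCombination ℤ (id : A → A) (l₁ - l₂) = 0 := by
    rw [map_sub, hx1, hx2, sub_self]
  rw [Finsupp.linearCombination_apply, Finsupp.sum] at h0
  have hsupp : (↑(l₁ - l₂).support : Set A) ⊆ B := by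
    intro i hi
    have := Finsupp.support_sub hi
    rcases Finset.mem_union.1 this with h' | h'
    · exact h₁ (hl₁ h')
    · exact h₂ (hl₂ h')
  have h3 := hB _ hsupp _ h0
  rw [← hx1, Finsupp.linearCombination_apply, Finsupp.sum]
  refine Finset.sum_eq_zero fun i hi => ?_
  have hi1 : i ∈ B₁ := hl₁ hi
  have hi2 : l₂ i = 0 := by
    by_contra hne
    exact (Set.disjoint_left.1 h hi1) (hl₂ (Finsupp.mem_support_iff.2 hne))
  have hi3 : (l₁ - l₂) i = l₁ i := by rw [Finsupp.sub_apply, hi2, sub_zero]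
  have hi4 : i ∈ (l₁ - l₂).support := by
    rw [Finsupp.mem_support_iff, hi3]
    exact Finsupp.mem_support_iff.1 hi
  have := h3 i hi4
  rwa [hi3] at this

theorem mk_span_le (S : Set A) : #(span ℤ S) ≤ max #S ℵ₀ := by
  rcases S.eq_empty_or_nonempty with rfl | hne
  · rw [span_empty]
    refine le_max_of_le_right ?_
    have : #(⊥ : Submodule ℤ A) = 1 := Cardinal.mk_eq_one _
    rw [this]
    exact Cardinal.one_le_aleph0
  · have : Nonempty S := hne.to_subtype
    let f : (S →₀ ℤ) → span ℤ S := fun l =>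
      ⟨Finsupp.linearCombination ℤ (Subtype.val : S → A) l, by
        have := Finsupp.range_linearCombination ℤ (v := (Subtype.val : S → A))
        rw [Subtype.range_val] at this
        rw [← this]
        exact LinearMap.mem_range_self _ l⟩
    have hf : Function.Surjective f := by
      rintro ⟨x, hx⟩
      have := Finsupp.range_linearCombination ℤ (v := (Subtype.val : S → A))
      rw [Subtype.range_val] at this
      rw [← this] at hx
      obtain ⟨l, hl⟩ := hx
      exact ⟨l, Subtype.ext hl⟩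
    have := Cardinal.mk_le_of_surjective hf
    rwa [Cardinal.mk_finsupp_lift_of_infinite', Cardinal.lift_uzero, Cardinal.mk_int,
      Cardinal.lift_aleph0] at this

theorem mk_span_lt {μ : Cardinal.{u}} (hμ : ℵ₀ ≤ μ)
    (hcase : ℵ₀ < μ ∨ ∃ N : ℕ, 0 < N ∧ ∀ x : A, N • x = 0) (S : Set A) (hS : #S < μ) :
    #(span ℤ S) < μ := by
  rcases hμ.lt_or_eq with h | h
  · exact lt_of_le_of_lt (mk_span_le S) (max_lt hS h)
  · rcases hcase with h' | ⟨N, hN, hN'⟩
    · exact absurd h' (by rw [← h]; exact lt_irrefl _)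
    · rw [← h] at hS ⊢
      have hfin : S.Finite := Cardinal.lt_aleph0_iff_set_finite.1 hS
      have : Module.Finite ℤ (span ℤ S) := Module.Finite.span_of_finite ℤ hfin
      have htor : Module.IsTorsion ℤ (span ℤ S) := by
        intro x
        refine ⟨⟨(N : ℤ), ?_⟩, ?_⟩
        · rw [mem_nonZeroDivisors_iff_ne_zero]
          exact_mod_cast hN.ne'
        · apply Subtype.ext
          change ((N : ℤ) • (x : A)) = 0
          rw [natCast_zsmul]
          exact hN' _
      have : Finite (span ℤ S) := Module.finite_of_fg_torsion _ htor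
      exact Cardinal.lt_aleph0_of_finite _

theorem exists_split (d : ℕ) (hd : 0 < d) (μ : Cardinal.{u}) (hμ : ℵ₀ ≤ μ)
    (hcard : #(Set.range fun x : A => d • x) < μ)
    (hcase : ℵ₀ < μ ∨ ∃ N : ℕ, 0 < N ∧ ∀ x : A, N • x = 0) :
    ∃ U V : Submodule ℤ A, IsCompl U V ∧ #U < μ ∧ ∀ v ∈ V, d • v = 0 := by
  classical
  -- a section of multiplication by `d`
  let R : Set A := Set.range fun x : A => d • x
  have hsec : ∀ y : R, ∃ x : A, d • x = y := fun y => y.2
  choose σ hσ using hsec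
  let S₀ : Set A := Set.range σ
  have hS₀ : #S₀ < μ := lt_of_le_of_lt Cardinal.mk_range_le hcard
  let W : Submodule ℤ A := torsionBy ℤ A (d : ℤ)
  have hW : ∀ x, x ∈ W ↔ d • x = 0 := by
    intro x
    rw [Submodule.mem_torsionBy_iff, natCast_zsmul]
  obtain ⟨B, hB, hBW⟩ := HasBasis.sub (C := W) (hasBasis_of_bounded d hd W (fun x =>
    Subtype.ext ((hW x).1 x.2)))
  let U₀ : Submodule ℤ A := span ℤ S₀
  have hU₀ : #U₀ < μ := mk_span_lt hμ hcase S₀ hS₀
  -- finite supports
  have hfin : ∀ x : U₀, ∃ T : Finset A, (↑T : Set A) ⊆ B ∧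
      ((x : A) ∈ W → (x : A) ∈ span ℤ (↑T : Set A)) := by
    intro x
    by_cases hx : (x : A) ∈ W
    · have hx' := hx
      rw [← hBW] at hx'
      obtain ⟨T, hT, hxT⟩ := Submodule.mem_span_finite_of_mem_span hx'
      exact ⟨T, hT, fun _ => hxT⟩
    · exact ⟨∅, by simp, fun h => absurd h hx⟩
  choose T hTB hTx using hfin
  let B₁ : Set A := ⋃ x, (↑(T x) : Set A)
  have hB₁B : B₁ ⊆ B := Set.iUnion_subset hTB
  have hB₁ : #B₁ < μ := by
    rcases hμ.lt_or_eq with h | h
    · refine lt_of_le_of_lt (Cardinal.mk_iUnion_le _) ?_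
      refine Cardinal.mul_lt_of_lt hμ hU₀ ?_
      refine lt_of_le_of_lt (b := ℵ₀) ?_ h
      refine ciSup_le' fun x => ?_
      exact (Cardinal.lt_aleph0_iff_set_finite.2 (T x).finite_toSet).le
    · rw [← h] at hU₀ ⊢
      have : Finite U₀ := Cardinal.lt_aleph0_iff_finite.1 hU₀
      exact Cardinal.lt_aleph0_iff_set_finite.2
        (Set.finite_iUnion fun x => (T x).finite_toSet)
  let U : Submodule ℤ A := U₀ ⊔ span ℤ B₁
  let V : Submodule ℤ A := span ℤ (B \ B₁)
  have hVW : V ≤ W := by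
    rw [← hBW]
    exact span_mono Set.sdiff_subset
  have hB₁W : span ℤ B₁ ≤ W := by
    rw [← hBW]
    exact span_mono hB₁B
  have hdis : Disjoint (span ℤ B₁) V :=
    hB.disjoint_span hB₁B Set.sdiff_subset Set.disjoint_sdiff_right
  refine ⟨U, V, ⟨?_, ?_⟩, ?_, fun v hv => (hW v).1 (hVW hv)⟩
  · rw [Submodule.disjoint_def]
    intro x hxU hxV
    obtain ⟨u, hu, w, hw, rfl⟩ := Submodule.mem_sup.1 hxU
    have huW : u ∈ W := by
      have : u = (u + w) - w := by abel
      rw [this]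
      exact sub_mem (hVW hxV) (hB₁W hw)
    have hu1 : u ∈ span ℤ B₁ :=
      span_mono (Set.subset_iUnion (fun x => (↑(T x) : Set A)) ⟨u, hu⟩) (hTx ⟨u, hu⟩ huW)
    exact Submodule.disjoint_def.1 hdis _ (add_mem hu1 hw) hxV
  · rw [codisjoint_iff, eq_top_iff]
    intro x _
    have h1 : d • (x - σ ⟨d • x, x, rfl⟩) = 0 := by
      rw [smul_sub, hσ, sub_self]
    have h2 : x - σ ⟨d • x, x, rfl⟩ ∈ span ℤ B₁ ⊔ V := by
      rw [← span_union, Set.union_sdiff_cancel hB₁B, hBW]
      exact (hW _).2 h1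
    have h3 : x = σ ⟨d • x, x, rfl⟩ + (x - σ ⟨d • x, x, rfl⟩) := by abel
    rw [h3]
    refine add_mem ?_ ?_
    · refine Submodule.mem_sup_left (Submodule.mem_sup_left (subset_span ?_))
      exact ⟨_, rfl⟩
    · have hle : span ℤ B₁ ⊔ V ≤ U ⊔ V := sup_le_sup le_sup_right le_rfl
      exact hle h2
  · have hUspan : U = span ℤ (S₀ ∪ B₁) := by rw [span_union]
    rw [hUspan]
    refine mk_span_lt hμ hcase _ ?_
    exact lt_of_le_of_lt (Cardinal.mk_union_le _ _) (Cardinal.add_lt_of_lt hμ hS₀ hB₁)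

end Pool.Agent.MP_f23337_gt
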