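import Pool.Agent.Lib.MP_f23337_gt.Embed
import Pool.Agent.Lib.MP_f23337_gt.Split

/-!
Permanence properties of good groups, admissible cardinals, the case of bounded groups.
-/

set_option autoImplicit false

namespace Pool.Agent.MP_f23337_gt

open Set Cardinal Submodule

universe u v w

theorem GoodGroup.of_finite (A : Type u) [AddCommGroup A] [Finite A] : GoodGroup A := by
  let : TopologicalSpace A := ⊥
  have : DiscreteTopology A := ⟨rfl⟩
  refine ⟨inferInstance, inferInstance, inferInstance, ?_⟩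
  intro U _ hU
  exact ⟨Set.univ, isCompact_univ, fun n => by rw [Set.univ_inter]; exact hU n⟩

theorem GoodGroup.of_equiv {A : Type u} [AddCommGroup A] {B : Type v} [AddCommGroup B]
    (e : A ≃+ B) (h : GoodGroup B) : GoodGroup A := by
  obtain ⟨t, ht1, ht2, ht3⟩ := h
  let tA : TopologicalSpace A := TopologicalSpace.induced e t
  refine ⟨tA, topologicalAddGroup_induced e,
    T2Space.of_injective_continuous (f := e) e.injective continuous_induced_dom, ?_⟩
  have hemb : Topology.IsInducing e := ⟨rfl⟩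
  intro U hU hne
  have hV : ∀ n, IsOpen (e.symm ⁻¹' U n) := by
    intro n
    obtain ⟨V, hV, hVU⟩ := isOpen_induced_iff.1 (hU n)
    have : e.symm ⁻¹' U n = V := by
      rw [← hVU]
      ext x
      simp
    rw [this]
    exact hV
  obtain ⟨K, hK, hKn⟩ := ht3 (fun n => e.symm ⁻¹' U n) hV
    (fun n => by
      obtain ⟨x, hx⟩ := hne n
      exact ⟨e x, by simpa using hx⟩)
  refine ⟨e.symm '' K, ?_, fun n => ?_⟩
  · rw [hemb.isCompact_iff]
    rw [Set.image_image]
    simpa using hK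
  · obtain ⟨x, hxK, hxU⟩ := hKn n
    exact ⟨e.symm x, ⟨x, hxK, rfl⟩, hxU⟩

theorem GoodGroup.prod {A : Type u} [AddCommGroup A] {B : Type v} [AddCommGroup B]
    (hA : GoodGroup A) (hB : GoodGroup B) : GoodGroup (A × B) := by
  obtain ⟨t, ht1, ht2, ht3⟩ := hA
  obtain ⟨s, hs1, hs2, hs3⟩ := hB
  refine ⟨inferInstance, inferInstance, inferInstance, ?_⟩
  intro U hU hne
  choose x hx using hne
  have hbox : ∀ n, ∃ V : Set A, ∃ W : Set B, IsOpen V ∧ IsOpen W ∧ (x n).1 ∈ V ∧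
      (x n).2 ∈ W ∧ V ×ˢ W ⊆ U n := fun n => isOpen_prod_iff.1 (hU n) (x n).1 (x n).2 (hx n)
  choose V W hV hW hxV hxW hVW using hbox
  obtain ⟨K, hK, hKn⟩ := ht3 V hV (fun n => ⟨_, hxV n⟩)
  obtain ⟨L, hL, hLn⟩ := hs3 W hW (fun n => ⟨_, hxW n⟩)
  refine ⟨K ×ˢ L, hK.prod hL, fun n => ?_⟩
  obtain ⟨a, ha1, ha2⟩ := hKn n
  obtain ⟨b, hb1, hb2⟩ := hLn n
  exact ⟨(a, b), ⟨ha1, hb1⟩, hVW n ⟨ha2, hb2⟩⟩

theorem GoodGroup.of_isCompl {A : Type u} [AddCommGroup A] {U V : Submodule ℤ A}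
    (h : IsCompl U V) (hU : GoodGroup U) (hV : GoodGroup V) : GoodGroup A :=
  GoodGroup.of_equiv (Submodule.prodEquivOfIsCompl U V h).symm.toAddEquiv (hU.prod hV)

/-- Countable subsets are separated by members of the family. -/
def OmegaInj {F J : Type u} (φ : F → J → ℕ) : Prop :=
  ∀ A : Set J, A.Countable → ∃ f, Set.InjOn (φ f) A

/-- Admissible cardinals. -/
def Adm (κ : Cardinal.{u}) : Prop :=
  𝔠 ≤ κ ∧ ∃ (J F : Type u) (φ : F → J → ℕ), Infinite J ∧ OmegaInj φ ∧ #F ≤ κ ∧ κ ≤ 2 ^ #J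

theorem goodGroup_of_indepSet {M : Type u} [AddCommGroup M] (n : ℕ) (hn : ∀ m : M, n • m = 0)
    {J F : Type u} [Infinite J] (φ : F → J → ℕ) (hφ : OmegaInj φ) (hMJ : #M ≤ 2 ^ #J)
    (B : Set M) (hB : IndepSet B) (hBn : ∀ b ∈ B, addOrderOf b = n) (hFB : #F ≤ #B)
    (hcB : 𝔠 ≤ #B) : GoodGroup M := by
  have hBM : #B ≤ #M := Cardinal.mk_set_le B
  have hBinf : ℵ₀ ≤ #B := Cardinal.aleph0_le_continuum.trans hcB
  have hidx : #(Idx F) ≤ #B := by
    rw [Cardinal.mk_prod, Cardinal.mk_prod]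
    simp only [Cardinal.mk_pi, Cardinal.prod_const, Cardinal.mk_real, Cardinal.lift_id,
      Cardinal.lift_continuum, Cardinal.mk_nat, Cardinal.lift_aleph0, Cardinal.mk_bool,
      Cardinal.lift_uzero, Cardinal.lift_power, Cardinal.lift_mul, Cardinal.lift_ofNat]
    refine Cardinal.mul_le_of_le hBinf hFB (Cardinal.mul_le_of_le hBinf ?_ ?_)
    · simpa using hcB
    · simpa using hcB
  obtain ⟨g⟩ := Cardinal.le_def _ _ |>.1 hidx
  refine goodGroup_of_family (J := J) (F := F) n hn hMJ (hFB.trans (hBM.trans hMJ)) φ hφ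
    (fun y => (g y : M)) ?_ (fun y => hBn _ (g y).2)
  exact IndepOn.of_injective (E := (id : M → M)) (φ := fun y : Idx F => (g y : M))
    (fun a b hab => g.injective (Subtype.ext hab)) (fun b _ => (g b).2) hB

/-- The set of `m`-th multiples. -/
def rng (A : Type u) [AddCommGroup A] (m : ℕ) : Set A := Set.range fun x : A => m • x

theorem mk_rng_le_mul {A : Type u} [AddCommGroup A] {U V : Submodule ℤ A}
    (h : IsCompl U V) (m : ℕ) : #(rng A m) ≤ #(rng U m) * #(rng V m) := by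
  rw [Cardinal.mul_def]
  refine Cardinal.mk_le_of_surjective
    (f := fun x : rng U m × rng V m => (⟨((x.1 : U) : A) + ((x.2 : V) : A), ?_⟩ : rng A m)) ?_
  · obtain ⟨⟨_, u, rfl⟩, ⟨_, v, rfl⟩⟩ := x
    exact ⟨(u : A) + (v : A), by simp [smul_add]⟩
  · rintro ⟨_, x, rfl⟩
    have hx : x ∈ U ⊔ V := by rw [h.sup_eq_top]; trivial
    obtain ⟨u, hu, v, hv, rfl⟩ := Submodule.mem_sup.1 hx
    refine ⟨(⟨m • ⟨u, hu⟩, ⟨u, hu⟩, rfl⟩, ⟨m • ⟨v, hv⟩, ⟨v, hv⟩, rfl⟩), ?_⟩
    apply Subtype.ext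
    simp [smul_add]

theorem mk_rng_sub_le {A : Type u} [AddCommGroup A] (V : Submodule ℤ A) (m : ℕ) :
    #(rng V m) ≤ #(rng A m) := by
  refine Cardinal.mk_le_of_injective (f := fun x : rng V m => (⟨((x : V) : A), ?_⟩ : rng A m)) ?_
  · obtain ⟨_, y, rfl⟩ := x
    exact ⟨(y : A), rfl⟩
  · intro a b hab
    apply Subtype.ext
    apply Subtype.ext
    exact congrArg (fun z : rng A m => (z : A)) hab

theorem mk_rng_le (A : Type u) [AddCommGroup A] (m : ℕ) : #(rng A m) ≤ #A :=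
  Cardinal.mk_set_le _

/-- The case of bounded `p`-groups. -/
theorem goodGroup_prime_pow {p : ℕ} (hp : p.Prime) (k : ℕ) :
    ∀ (V : Type u) [AddCommGroup V], (∀ x : V, p ^ k • x = 0) →
      (∀ i, (rng V (p ^ i)).Finite ∨ Adm #(rng V (p ^ i))) → GoodGroup V := by
  classical
  induction k using Nat.strong_induction_on with
  | _ k ih =>
  intro V _ hV hadm
  rcases k with _ | k
  · have : Subsingleton V := ⟨fun x y => by
      have hx := hV x
      have hy := hV y
      rw [pow_zero, one_smul] at hx hy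
      rw [hx, hy]⟩
    exact GoodGroup.of_finite V
  -- the threshold
  have hμex : ∃ μ : Cardinal.{u}, ℵ₀ ≤ μ ∧ #(rng V (p ^ k)) < μ ∧
      ((#(rng V (p ^ k)) < ℵ₀ ∧ μ = ℵ₀) ∨
        (ℵ₀ ≤ #(rng V (p ^ k)) ∧ μ = Order.succ #(rng V (p ^ k)))) := by
    rcases lt_or_ge #(rng V (p ^ k)) ℵ₀ with h | h
    · exact ⟨ℵ₀, le_rfl, h, Or.inl ⟨h, rfl⟩⟩
    · exact ⟨Order.succ #(rng V (p ^ k)), h.trans (Order.le_succ _), Order.lt_succ _,
        Or.inr ⟨h, rfl⟩⟩
  obtain ⟨μ, hμ, hkμ, hμcase⟩ := hμex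
  have hex : ∃ j, #(rng V (p ^ j)) < μ := ⟨k, hkμ⟩
  set j := Nat.find hex with hj
  have hjk : j ≤ k := Nat.find_min' hex hkμ
  have hjμ : #(rng V (p ^ j)) < μ := Nat.find_spec hex
  have hmin : ∀ i, i < j → μ ≤ #(rng V (p ^ i)) := fun i hi => not_lt.1 (Nat.find_min hex hi)
  obtain ⟨U, W, hUW, hUμ, hW⟩ := exists_split (A := V) (p ^ j) (pow_pos hp.pos j) μ hμ hjμ
    (Or.inr ⟨p ^ (k + 1), pow_pos hp.pos _, hV⟩)
  have hpow : ∀ {i l : ℕ}, i ≤ l → ∀ x : V, p ^ i • x = 0 → p ^ l • x = 0 := by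
    intro i l hil x hx
    rw [← Nat.sub_add_cancel hil, pow_add, mul_smul, hx, smul_zero]
  -- the part killed by `p ^ j`
  have hWgood : GoodGroup W := by
    refine ih j (by omega) W (fun x => Subtype.ext (hW x x.2)) fun i => ?_
    by_cases hij : i < j
    · right
      have h1 : #(rng U (p ^ i)) < μ := lt_of_le_of_lt (mk_rng_le U _) hUμ
      have h2 : μ ≤ #(rng W (p ^ i)) := by
        by_contra hcon
        have := Cardinal.mul_lt_of_lt hμ h1 (not_le.1 hcon)
        exact absurd (lt_of_le_of_lt (mk_rng_le_mul hUW (p ^ i)) this) (not_lt.2 (hmin i hij))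
      have h3 : #(rng V (p ^ i)) = #(rng W (p ^ i)) := by
        refine le_antisymm ?_ (mk_rng_sub_le W _)
        refine (mk_rng_le_mul hUW (p ^ i)).trans ?_
        exact Cardinal.mul_le_of_le (hμ.trans h2) (h1.le.trans h2) le_rfl
      rw [← h3]
      refine (hadm i).resolve_left fun hfin => ?_
      have := Cardinal.lt_aleph0_iff_set_finite.2 hfin
      exact absurd (this.trans_le hμ) (not_lt.2 (hmin i hij))
    · left
      refine (Set.finite_singleton (0 : W)).subset ?_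
      rintro _ ⟨x, rfl⟩
      apply Subtype.ext
      exact hpow (not_lt.1 hij) _ (hW x x.2)
  refine GoodGroup.of_isCompl hUW ?_ hWgood
  -- the small part
  rcases hμcase with ⟨-, rfl⟩ | ⟨hinf, rfl⟩
  · have : Finite U := Cardinal.lt_aleph0_iff_finite.1 hUμ
    exact GoodGroup.of_finite U
  · have hadmk : Adm #(rng V (p ^ k)) :=
      (hadm k).resolve_left fun hfin =>
        absurd (Cardinal.lt_aleph0_iff_set_finite.2 hfin) (not_lt.2 hinf)
    obtain ⟨hc, J, F, φ, hJ, hφ, hFκ, hκJ⟩ := hadmk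
    have hUp : ∀ x : U, p ^ (k + 1) • x = 0 := fun x => Subtype.ext (hV x)
    obtain ⟨B, hB, hBk, C, hBC, hCk⟩ := exists_top_basis hp hUp
    have hkU : #(rng V (p ^ k)) ≤ #(rng U (p ^ k)) := by
      refine (mk_rng_le_mul hUW (p ^ k)).trans ?_
      have : #(rng W (p ^ k)) ≤ 1 := by
        rw [Cardinal.le_one_iff_subsingleton]
        refine ⟨fun a b => ?_⟩
        obtain ⟨_, x, rfl⟩ := a
        obtain ⟨_, y, rfl⟩ := b
        apply Subtype.ext
        apply Subtype.ext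
        change p ^ k • (x : V) = p ^ k • (y : V)
        rw [hpow hjk _ (hW x x.2), hpow hjk _ (hW y y.2)]
      calc #(rng U (p ^ k)) * #(rng W (p ^ k)) ≤ #(rng U (p ^ k)) * 1 := by gcongr
        _ = #(rng U (p ^ k)) := mul_one _
    have hUspan : #(rng U (p ^ k)) ≤ max #B ℵ₀ := by
      refine le_trans ?_ (mk_span_le B)
      refine Cardinal.mk_le_mk_of_subset ?_
      rintro _ ⟨x, rfl⟩
      have hx : x ∈ span ℤ B ⊔ C := by rw [hBC.sup_eq_top]; trivial
      obtain ⟨y, hy, c, hc, rfl⟩ := Submodule.mem_sup.1 hx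
      change p ^ k • (y + c) ∈ span ℤ B
      rw [smul_add, hCk c hc, add_zero]
      exact (span ℤ B).smul_of_tower_mem _ hy
    have hBκ : #(rng V (p ^ k)) ≤ #B := by
      by_contra hcon
      have h1 : #B < #(rng V (p ^ k)) := not_le.1 hcon
      have h2 : ℵ₀ < #(rng V (p ^ k)) := Cardinal.aleph0_lt_continuum.trans_le hc
      exact absurd ((hkU.trans hUspan).trans_lt (max_lt h1 h2)) (lt_irrefl _)
    have : Fact p.Prime := ⟨hp⟩
    refine goodGroup_of_indepSet (p ^ (k + 1)) hUp φ hφ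
      ((Order.lt_succ_iff.1 hUμ).trans hκJ) B hB
      (fun b hb => addOrderOf_eq_prime_pow (hBk b hb) (hUp b)) (hFκ.trans hBκ) (hc.trans hBκ)

theorem mk_rng_torsionBy {V : Type u} [AddCommGroup V] {a b : ℕ} (hab : Nat.Coprime a b)
    (hV : ∀ x : V, (a * b) • x = 0) (m : ℕ) :
    #(rng (torsionBy ℤ V (a : ℤ)) m) = #(rng V (m * b)) := by
  have hcompl := isCompl_torsionBy hab hV
  obtain ⟨u, v, huv⟩ : IsCoprime (a : ℤ) (b : ℤ) := Nat.isCoprime_iff_coprime.2 hab
  have hH : ∀ x : torsionBy ℤ V (a : ℤ), (a : ℤ) • (x : V) = 0 := fun x =>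
    (Submodule.mem_torsionBy_iff _ _).1 x.2
  let f : rng (torsionBy ℤ V (a : ℤ)) m → rng V (m * b) := fun y =>
    ⟨b • ((y : torsionBy ℤ V (a : ℤ)) : V), by
      obtain ⟨_, x, rfl⟩ := y
      refine ⟨(x : V), ?_⟩
      simp [mul_comm m b, mul_smul]⟩
  refine Cardinal.mk_congr (Equiv.ofBijective f ⟨?_, ?_⟩)
  · intro y z hyz
    have h1 : b • ((y : torsionBy ℤ V (a : ℤ)) : V) = b • ((z : torsionBy ℤ V (a : ℤ)) : V) :=
      congrArg (fun w : rng V (m * b) => (w : V)) hyz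
    apply Subtype.ext
    apply Subtype.ext
    have h2 : ∀ w : torsionBy ℤ V (a : ℤ), (w : V) = v • (b • (w : V)) := by
      intro w
      have h3 : (w : V) = (u * a + v * b) • (w : V) := by rw [huv, one_smul]
      rw [add_smul, mul_smul, mul_smul, hH, smul_zero, zero_add, natCast_zsmul] at h3
      exact h3
    rw [h2 y, h2 z, h1]
  · rintro ⟨_, x, rfl⟩
    have hx : x ∈ torsionBy ℤ V (a : ℤ) ⊔ torsionBy ℤ V (b : ℤ) := by
      rw [hcompl.sup_eq_top]; trivial
    obtain ⟨h, hh, c, hc, rfl⟩ := Submodule.mem_sup.1 hx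
    refine ⟨⟨m • ⟨h, hh⟩, ⟨h, hh⟩, rfl⟩, ?_⟩
    apply Subtype.ext
    change b • (m • h) = (m * b) • (h + c)
    have hc' : b • c = 0 := by
      rw [Submodule.mem_torsionBy_iff, natCast_zsmul] at hc
      exact hc
    rw [smul_add, mul_smul m b c, hc', smul_zero, add_zero, smul_smul, mul_comm b m]

/-- The case of bounded groups. -/
theorem goodGroup_of_bounded (d : ℕ) : 0 < d → ∀ (V : Type u) [AddCommGroup V],
    (∀ x : V, d • x = 0) → (∀ m, 0 < m → (rng V m).Finite ∨ Adm #(rng V m)) →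
      GoodGroup V := by
  have htransfer : ∀ (a b : ℕ), Nat.Coprime a b → 0 < b → ∀ (V : Type u) [AddCommGroup V],
      (∀ x : V, (a * b) • x = 0) → (∀ m, 0 < m → (rng V m).Finite ∨ Adm #(rng V m)) →
      ∀ m, 0 < m → (rng (torsionBy ℤ V (a : ℤ)) m).Finite ∨
        Adm #(rng (torsionBy ℤ V (a : ℤ)) m) := by
    intro a b hab hb V _ hV hadm m hm
    rw [mk_rng_torsionBy hab hV]
    refine (hadm (m * b) (Nat.mul_pos hm hb)).imp ?_ id
    intro hfin
    rw [← Cardinal.lt_aleph0_iff_set_finite] at hfin ⊢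
    rwa [mk_rng_torsionBy hab hV]
  induction d using Nat.recOnPosPrimePosCoprime with
  | prime_pow p n hp _ =>
    intro _ V _ hV hadm
    exact goodGroup_prime_pow hp n V hV (fun i => hadm _ (pow_pos hp.pos i))
  | zero => intro h; exact absurd h (lt_irrefl 0)
  | one =>
    intro _ V _ hV hadm
    exact goodGroup_prime_pow Nat.prime_two 0 V (fun x => by simpa using hV x)
      (fun i => hadm _ (pow_pos two_pos i))
  | coprime a b ha hb hab iha ihb =>
    intro _ V _ hV hadm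
    have hV' : ∀ x : V, (b * a) • x = 0 := fun x => by rw [mul_comm]; exact hV x
    refine GoodGroup.of_isCompl (isCompl_torsionBy hab hV) (iha (by omega) _ ?_ ?_)
      (ihb (by omega) _ ?_ ?_)
    · rintro ⟨x, hx⟩
      rw [Submodule.mem_torsionBy_iff] at hx
      apply Subtype.ext
      simpa using hx
    · exact htransfer a b hab (by omega) V hV hadm
    · rintro ⟨x, hx⟩
      rw [Submodule.mem_torsionBy_iff] at hx
      apply Subtype.ext
      simpa using hx
    · exact htransfer b a hab.symm (by omega) V hV' hadm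

end Pool.Agent.MP_f23337_gt
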