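import Mathlib

/-!
Independent families in abelian groups, maximal independent extensions, extension of
homomorphisms into divisible groups.
-/

set_option autoImplicit false

namespace Pool.Agent.MP_f23337_gt

universe u v w

variable {M : Type u} [AddCommGroup M]

/-- The family `E` restricted to `S` is independent when every integer relation between its
members is trivial term by term (elements of finite order are allowed). -/
def IndepOn {α : Type v} (E : α → M) (S : Set α) : Prop :=
  ∀ s : Finset α, (↑s : Set α) ⊆ S → ∀ c : α → ℤ, ∑ i ∈ s, c i • E i = 0 →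
    ∀ i ∈ s, c i • E i = 0

theorem IndepOn.mono {α : Type v} {E : α → M} {S S' : Set α} (h : IndepOn E S')
    (hS : S ⊆ S') : IndepOn E S :=
  fun s hs c hc => h s (hs.trans hS) c hc

/-- Independence transfers along injective reindexing. -/
theorem IndepOn.of_injective {α : Type v} {β : Type w} {E : α → M} {φ : β → α}
    (hφ : Function.Injective φ) {S : Set α} {S' : Set β} (hS : ∀ b ∈ S', φ b ∈ S)
    (h : IndepOn E S) : IndepOn (fun b => E (φ b)) S' := by
  classical
  intro s hs c hc i hi
  let c' : α → ℤ := fun a => if h : ∃ b, φ b = a then c h.choose else 0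
  have hc' : ∀ b, c' (φ b) = c b := by
    intro b
    have hb : ∃ b', φ b' = φ b := ⟨b, rfl⟩
    change (if h : ∃ b', φ b' = φ b then c h.choose else 0) = c b
    rw [dif_pos hb]
    exact congrArg c (hφ hb.choose_spec)
  have h1 : ∑ a ∈ s.map ⟨φ, hφ⟩, c' a • E a = 0 := by
    rw [Finset.sum_map]
    simpa [hc'] using hc
  have h2 := h (s.map ⟨φ, hφ⟩) (by
    intro a ha
    rw [Finset.coe_map] at ha
    obtain ⟨b, hb, rfl⟩ := ha
    exact hS b (hs hb)) c' h1 (φ i) (Finset.mem_map.2 ⟨i, hi, rfl⟩)
  rwa [hc'] at h2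

/-- Conversely, independence of a reindexed family gives independence on the image. -/
theorem IndepOn.image {α : Type v} {β : Type w} {E : α → M} {φ : β → α} {S' : Set β}
    (h : IndepOn (fun b => E (φ b)) S') : IndepOn E (φ '' S') := by
  classical
  intro s hs c hc i hi
  have hs' : ∀ a ∈ s, ∃ b ∈ S', φ b = a := fun a ha => hs ha
  have : Nonempty β := ⟨(hs' i hi).choose⟩
  choose! ψ hψ1 hψ2 using hs'
  have hinj : Set.InjOn ψ (↑s : Set α) := by
    intro a ha b hb hab
    rw [← hψ2 a ha, ← hψ2 b hb, hab]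
  have h1 : ∑ b ∈ s.image ψ, c (φ b) • E (φ b) = 0 := by
    rw [Finset.sum_image hinj]
    rw [← hc]
    exact Finset.sum_congr rfl fun a ha => by rw [hψ2 a ha]
  have h2 := h (s.image ψ) (by
    intro b hb
    rw [Finset.coe_image] at hb
    obtain ⟨a, ha, rfl⟩ := hb
    exact hψ1 a ha) (fun b => c (φ b)) h1 (ψ i) (Finset.mem_image_of_mem _ hi)
  simpa [hψ2 i hi] using h2

/-- Extension property of independent families with values in a divisible group. -/
theorem exists_hom_of_indepOn {α : Type v} {E : α → M} {S : Set α} (hE : IndepOn E S)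
    {A : Type w} [AddCommGroup A] [DivisibleBy A ℤ] (f : α → A)
    (hf : ∀ i ∈ S, ∀ k : ℤ, k • E i = 0 → k • f i = 0) :
    ∃ g : M →+ A, ∀ i ∈ S, g (E i) = f i := by
  classical
  let e : S → M := fun i => E i
  have he : IndepOn e Set.univ :=
    IndepOn.of_injective (φ := (Subtype.val : S → α)) Subtype.val_injective
      (fun b _ => b.2) hE
  let E₁ : (S →₀ ℤ) →ₗ[ℤ] M := Finsupp.linearCombination ℤ e
  let F : (S →₀ ℤ) →ₗ[ℤ] A := Finsupp.linearCombination ℤ (fun i : S => f i)
  have hker : LinearMap.ker E₁ ≤ LinearMap.ker F := by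
    intro c hc
    rw [LinearMap.mem_ker] at hc ⊢
    have h1 := he c.support (Set.subset_univ _) c (by
      change Finsupp.linearCombination ℤ e c = 0 at hc
      rw [Finsupp.linearCombination_apply, Finsupp.sum] at hc
      exact hc)
    change Finsupp.linearCombination ℤ (fun i : S => f i) c = 0
    rw [Finsupp.linearCombination_apply, Finsupp.sum]
    exact Finset.sum_eq_zero fun i hi => hf i i.2 _ (h1 i hi)
  let F' : ((S →₀ ℤ) ⧸ LinearMap.ker E₁) →ₗ[ℤ] A := (LinearMap.ker E₁).liftQ F hker
  let E' : ((S →₀ ℤ) ⧸ LinearMap.ker E₁) →ₗ[ℤ] M := (LinearMap.ker E₁).liftQ E₁ le_rfl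
  have hE' : Function.Injective E' := by
    rw [← LinearMap.ker_eq_bot]
    exact Submodule.ker_liftQ_eq_bot _ _ _ le_rfl
  obtain ⟨g, hg⟩ := (Module.Baer.of_divisible A).extension_property_addMonoidHom
    E'.toAddMonoidHom hE' F'.toAddMonoidHom
  refine ⟨g, fun i hi => ?_⟩
  let x : S →₀ ℤ := Finsupp.single ⟨i, hi⟩ 1
  have h2 : g (E' (Submodule.Quotient.mk x)) = F' (Submodule.Quotient.mk x) :=
    DFunLike.congr_fun hg (Submodule.Quotient.mk x)
  have h3 : E' (Submodule.Quotient.mk x) = E i := by
    change (LinearMap.ker E₁).liftQ E₁ le_rfl (Submodule.Quotient.mk x) = E i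
    rw [Submodule.liftQ_apply]
    simp [E₁, e, x]
  have h4 : F' (Submodule.Quotient.mk x) = f i := by
    change (LinearMap.ker E₁).liftQ F hker (Submodule.Quotient.mk x) = f i
    rw [Submodule.liftQ_apply]
    simp [F, x]
  rw [h3, h4] at h2
  exact h2

/-- A union of a chain of independent index sets is independent. -/
theorem IndepOn.sUnion_chain {α : Type v} {E : α → M} {c : Set (Set α)}
    (hc : IsChain (· ⊆ ·) c) (hne : c.Nonempty) (h : ∀ S ∈ c, IndepOn E S) :
    IndepOn E (⋃₀ c) := by
  intro s hs a ha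
  have : ∃ S ∈ c, (↑s : Set α) ⊆ S := by
    refine DirectedOn.exists_mem_subset_of_finset_subset_biUnion (f := fun S : Set α => S)
      hne ?_ ?_
    · exact hc.directedOn
    · simpa [Set.sUnion_eq_biUnion] using hs
  obtain ⟨S, hSc, hsS⟩ := this
  exact h S hSc s hsS a ha

/-- Adding one more index to an independent family: either it stays independent or a nonzero
multiple of the new member lies in the span of the old ones. -/
theorem IndepOn.insert_or {α : Type v} {E : α → M} {S : Set α} (h : IndepOn E S) (a : α) :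
    IndepOn E (insert a S) ∨
      ∃ k : ℤ, k • E a ≠ 0 ∧ k • E a ∈ Submodule.span ℤ (E '' S) := by
  classical
  by_cases hins : IndepOn E (insert a S)
  · exact Or.inl hins
  right
  unfold IndepOn at hins
  push Not at hins
  obtain ⟨s, hs, c, hc, i, hi, hne⟩ := hins
  have ha : a ∈ s := by
    by_contra ha
    have hsub : (↑s : Set α) ⊆ S := by
      intro x hx
      rcases hs hx with rfl | hx'
      · exact absurd hx ha
      · exact hx'
    exact hne (h s hsub c hc i hi)
  have hsum : c a • E a + ∑ x ∈ s.erase a, c x • E x = 0 := by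
    rw [Finset.add_sum_erase s (fun x => c x • E x) ha]
    exact hc
  have hsub : (↑(s.erase a) : Set α) ⊆ S := by
    intro x hx
    rw [Finset.coe_erase] at hx
    rcases hs hx.1 with rfl | hx'
    · exact absurd rfl hx.2
    · exact hx'
  refine ⟨c a, ?_, ?_⟩
  · intro h0
    rw [h0, zero_add] at hsum
    have h1 := h _ hsub c hsum
    by_cases hia : i = a
    · rw [hia] at hne
      exact hne h0
    · exact hne (h1 i (Finset.mem_erase.2 ⟨hia, hi⟩))
  · have : c a • E a = -∑ x ∈ s.erase a, c x • E x := eq_neg_of_add_eq_zero_left hsum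
    rw [this]
    refine Submodule.neg_mem _ (Submodule.sum_mem _ fun x hx => Submodule.smul_mem _ _ ?_)
    exact Submodule.subset_span ⟨x, hsub hx, rfl⟩

/-- Every independent family extends to a maximal one inside a larger index set on which `E`
is surjective; the maximal one is essential. -/
theorem exists_maximal_indepOn {α : Type v} (E : α → M) (S₀ : Set α) (h₀ : IndepOn E S₀) :
    ∃ S : Set α, S₀ ⊆ S ∧ IndepOn E S ∧
      ∀ a : α, E a ≠ 0 → ∃ k : ℤ, k • E a ≠ 0 ∧ k • E a ∈ Submodule.span ℤ (E '' S) := by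
  obtain ⟨S, hS₀, hS⟩ := zorn_subset_nonempty {S : Set α | IndepOn E S}
    (fun c hc hchain hne => ⟨⋃₀ c, IndepOn.sUnion_chain hchain hne (fun S hS => hc hS),
      fun s hs => Set.subset_sUnion_of_mem hs⟩) S₀ h₀
  refine ⟨S, hS₀, hS.prop, fun a ha => ?_⟩
  by_cases haS : a ∈ S
  · exact ⟨1, by simpa using ha, by
      rw [one_smul]; exact Submodule.subset_span ⟨a, haS, rfl⟩⟩
  · rcases IndepOn.insert_or hS.prop a with h1 | h1
    · exact absurd (hS.le_of_ge h1 (Set.subset_insert a S) (Set.mem_insert a S)) haS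
    · exact h1

/-- A homomorphism is injective when it is injective on the span of an essential
independent family. -/
theorem injective_of_essential {α : Type v} {E : α → M} {S : Set α}
    (hess : ∀ m : M, m ≠ 0 → ∃ k : ℤ, k • m ≠ 0 ∧ k • m ∈ Submodule.span ℤ (E '' S))
    {A : Type w} [AddCommGroup A] (g : M →+ A)
    (hg : ∀ s : Finset α, (↑s : Set α) ⊆ S → ∀ c : α → ℤ, ∑ i ∈ s, c i • g (E i) = 0 →
      ∀ i ∈ s, c i • E i = 0) : Function.Injective g := by
  classical
  rw [injective_iff_map_eq_zero]
  intro m hm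
  by_contra hne
  obtain ⟨k, hk, hmem⟩ := hess m hne
  rw [Finsupp.mem_span_image_iff_linearCombination] at hmem
  obtain ⟨l, hl, hlk⟩ := hmem
  rw [Finsupp.mem_supported] at hl
  rw [Finsupp.linearCombination_apply, Finsupp.sum] at hlk
  have h1 : ∑ i ∈ l.support, l i • g (E i) = 0 := by
    have : g (k • m) = 0 := by rw [map_zsmul, hm, smul_zero]
    rw [← hlk, map_sum] at this
    simpa [map_zsmul] using this
  have h2 := hg l.support hl l h1
  apply hk
  rw [← hlk]
  exact Finset.sum_eq_zero h2

end Pool.Agent.MP_f23337_gt
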