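import Pool.Agent.Lib.MP_f23337_gt.Extract

/-!
Every abelian group with a pseudocompact Hausdorff group topology carries a Hausdorff group
topology with the compact hitting property.
-/

set_option autoImplicit false

namespace Pool.Agent.MP_f23337_gt

open Set Topology Cardinal

universe u v w

theorem finite_or_adm (G : Type u) [AddCommGroup G] [TopologicalSpace G]
    [IsTopologicalAddGroup G] [T2Space G] (hG : PC G) (m : ℕ) :
    (rng G m).Finite ∨ Adm #(rng G m) := by
  let H : AddSubgroup G := (nsmulAddMonoidHom (α := G) m).range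
  have hH : (H : Set G) = rng G m := rfl
  have hPC : PC H := by
    intro f hf
    let π : G → H := fun x => ⟨m • x, x, rfl⟩
    have hπ : Continuous π := Continuous.subtype_mk (continuous_nsmul m) _
    obtain ⟨C, hC⟩ := hG (f ∘ π) (hf.comp hπ)
    refine ⟨C, ?_⟩
    rintro ⟨_, x, rfl⟩
    exact hC x
  obtain ⟨K, _, _, _, _, _, j, hinj, hj⟩ := exists_compactification H hPC
  by_cases hfin : Finite H
  · left
    exact Set.toFinite (H : Set G)
  · right
    have : Infinite H := not_finite_iff_infinite.1 hfin
    have h1 : Adm #H := adm_of_infinite (G := H) hinj hj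
    exact h1

/-- The main theorem. -/
theorem goodGroup_of_pseudocompact (G : Type u) [AddCommGroup G]
    (h : ∃ t : TopologicalSpace G, @IsTopologicalAddGroup G t _ ∧ @T2Space G t ∧ @PC G t) :
    GoodGroup G := by
  obtain ⟨t, h1, h2, hPC⟩ := h
  obtain ⟨K, _, _, _, _, _, j, hinj, hj⟩ := exists_compactification G hPC
  have hadm : ∀ m, 0 < m → (rng G m).Finite ∨ Adm #(rng G m) := fun m _ => finite_or_adm G hPC m
  by_cases ht : ∀ g : G, IsOfFinAddOrder g
  · obtain ⟨n, hn, hn0⟩ := exists_exponent hinj hj ht
    exact goodGroup_of_bounded n hn G hn0 hadm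
  · push Not at ht
    obtain ⟨J, φ, n, hJ, hφ, hn, hnJ⟩ := data_of_nontorsion hinj hj
    exact goodGroup_of_nontorsion G φ hφ le_rfl (continuum_le_quotient hinj hj ht) n hn hnJ hadm

end Pool.Agent.MP_f23337_gt
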