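import Pool.Agent.Lib.MP_f23337_gt.Compact

/-!
Pseudocompact topological abelian groups embed as `Gδ`-dense subgroups of compact groups.
-/

set_option autoImplicit false

namespace Pool.Agent.MP_f23337_gt

open Set Topology Uniformity

universe u v w

/-- Every continuous real-valued function is bounded. -/
def PC (X : Type u) [TopologicalSpace X] : Prop :=
  ∀ f : X → ℝ, Continuous f → ∃ C : ℝ, ∀ x, |f x| ≤ C

theorem totallyBounded_of_pc {X : Type u} [UniformSpace X] (hX : PC X) :
    TotallyBounded (Set.univ : Set X) := by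
  classical
  by_contra hcon
  unfold TotallyBounded at hcon
  push Not at hcon
  obtain ⟨d, hd, hcon⟩ := hcon
  obtain ⟨W₁, hW₁, hW₁s, hW₁d⟩ := comp_symm_of_uniformity hd
  obtain ⟨W, hW, hWs, hWW⟩ := comp_symm_of_uniformity hW₁
  have hsep : ∀ s : Finset X, (∀ x ∈ s, True) → ∃ y, True ∧ ∀ x ∈ s, (y, x) ∉ d := by
    intro s _
    have h1 := hcon (↑s) s.finite_toSet
    rw [Set.not_subset] at h1
    obtain ⟨y, -, hy⟩ := h1
    refine ⟨y, trivial, fun x hx hyx => hy ?_⟩
    exact Set.mem_iUnion₂.2 ⟨x, hx, hyx⟩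
  obtain ⟨x, -, hx⟩ := exists_seq_of_forall_finset_exists (fun _ => True)
    (fun x y => (y, x) ∉ d) hsep
  -- bump functions
  have hbump : ∀ n, ∃ f : X → ℝ, Continuous f ∧ f (x n) = 1 ∧ ∀ y, f y ≠ 0 → (x n, y) ∈ W := by
    intro n
    have hnh : {y | (x n, y) ∈ W} ∈ 𝓝 (x n) := UniformSpace.ball_mem_nhds _ hW
    obtain ⟨f, hf, hf0, hf1⟩ := CompletelyRegularSpace.completely_regular (x n)
      (interior {y | (x n, y) ∈ W})ᶜ isOpen_interior.isClosed_compl
      (fun h => h (mem_interior_iff_mem_nhds.2 hnh))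
    refine ⟨fun y => 1 - (f y : ℝ), continuous_const.sub (continuous_subtype_val.comp hf), ?_, ?_⟩
    · simp [hf0]
    · intro y hy
      by_contra hyW
      apply hy
      have h1 : y ∈ (interior {y | (x n, y) ∈ W})ᶜ := fun h =>
        hyW (interior_subset (s := {y | (x n, y) ∈ W}) h)
      have h2 := hf1 h1
      simp [h2]
  choose f hfc hf1 hfW using hbump
  have hne : ∀ m n, m ≠ n → ∀ y, (x m, y) ∈ W₁ → (y, x n) ∈ W₁ → False := by
    intro m n hmn y h1 h2
    have hmem : ∀ a b c : X, (a, b) ∈ W₁ → (b, c) ∈ W₁ → (a, c) ∈ d := fun a b c h1 h2 =>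
      hW₁d ⟨b, h1, h2⟩
    rcases lt_or_gt_of_ne hmn with h | h
    · exact hx m n h (hmem _ _ _ (hW₁s h2) (hW₁s h1))
    · exact hx n m h (hmem _ _ _ h1 h2)
  have hWmem : ∀ a b c : X, (a, b) ∈ W → (b, c) ∈ W → (a, c) ∈ W₁ := fun a b c h1 h2 =>
    hWW ⟨b, h1, h2⟩
  have hlf : LocallyFinite fun n : ℕ => Function.support (fun y => (n : ℝ) * f n y) := by
    intro y
    refine ⟨{z | (y, z) ∈ W}, UniformSpace.ball_mem_nhds _ hW, Set.Subsingleton.finite ?_⟩
    rintro m ⟨z, hz1, hz2⟩ n ⟨z', hz1', hz2'⟩
    by_contra hmn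
    have h1 : (x m, z) ∈ W := hfW m z (right_ne_zero_of_mul hz1)
    have h2 : (x n, z') ∈ W := hfW n z' (right_ne_zero_of_mul hz1')
    exact hne m n hmn y (hWmem _ _ _ h1 (hWs hz2)) (hWmem _ _ _ hz2' (hWs h2))
  have hF : Continuous fun y => ∑ᶠ n : ℕ, (n : ℝ) * f n y :=
    continuous_finsum (fun n => continuous_const.mul (hfc n)) hlf
  obtain ⟨C, hC⟩ := hX _ hF
  obtain ⟨m, hm⟩ := exists_nat_gt C
  have hval : ∑ᶠ n : ℕ, (n : ℝ) * f n (x m) = m := by
    rw [finsum_eq_single _ m]
    · rw [hf1, mul_one]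
    · intro n hn
      by_contra h0
      have h1 : (x n, x m) ∈ W := hfW n (x m) (right_ne_zero_of_mul h0)
      have hrefl : (x m, x m) ∈ W := refl_mem_uniformity hW
      exact hne n m hn (x m) (hWmem _ _ _ h1 hrefl)
        (hWmem _ _ _ hrefl hrefl)
  have := hC (x m)
  simp only [hval] at this
  rw [abs_of_nonneg (Nat.cast_nonneg m)] at this
  linarith

/-- A pseudocompact Hausdorff abelian group sits in a compact group and meets every nonempty
closed `Gδ` set. -/
theorem exists_compactification (G : Type u) [AddCommGroup G] [TopologicalSpace G]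
    [IsTopologicalAddGroup G] [T2Space G] (hG : PC G) :
    ∃ (K : Type u) (_ : AddCommGroup K) (_ : TopologicalSpace K) (_ : IsTopologicalAddGroup K)
      (_ : CompactSpace K) (_ : T2Space K) (j : G →+ K), Function.Injective j ∧
        ∀ Z : Set K, IsClosed Z → IsGδ Z → Z.Nonempty → ∃ g, j g ∈ Z := by
  let : UniformSpace G := IsTopologicalAddGroup.rightUniformSpace G
  have : IsUniformAddGroup G := isUniformAddGroup_of_addCommGroup
  have htb : TotallyBounded (Set.univ : Set G) := totallyBounded_of_pc hG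
  have hcomp : CompactSpace (UniformSpace.Completion G) := by
    refine ⟨?_⟩
    have h1 : TotallyBounded (Set.range ((↑) : G → UniformSpace.Completion G)) := by
      rw [← Set.image_univ]
      exact htb.image (UniformSpace.Completion.uniformContinuous_coe G)
    have h2 := h1.closure
    rw [UniformSpace.Completion.denseRange_coe.closure_range] at h2
    exact h2.isCompact_of_isClosed isClosed_univ
  refine ⟨UniformSpace.Completion G, inferInstance, inferInstance, inferInstance, hcomp,
    inferInstance, UniformSpace.Completion.toCompl, UniformSpace.Completion.coe_injective G, ?_⟩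
  intro Z hZ hZG hne
  obtain ⟨f, hf1, -, -, hf2⟩ := exists_continuous_one_zero_of_isCompact_of_isGδ
    hZ.isCompact hZG isClosed_empty (Set.disjoint_empty Z)
  by_contra hcon
  push Not at hcon
  have hlt : ∀ g : G, 0 < 1 - f (g : UniformSpace.Completion G) := by
    intro g
    have h1 : (g : UniformSpace.Completion G) ∉ Z := hcon g
    have h2 : f (g : UniformSpace.Completion G) ≠ 1 := fun h => h1 (by
      rw [hf1]
      exact h)
    have h3 := (hf2 (g : UniformSpace.Completion G)).2
    exact sub_pos.2 (lt_of_le_of_ne h3 h2)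
  have hcont : Continuous fun g : G => (1 - f (g : UniformSpace.Completion G))⁻¹ := by
    refine Continuous.inv₀ ?_ fun g => (hlt g).ne'
    exact continuous_const.sub (f.continuous.comp (UniformSpace.Completion.continuous_coe G))
  obtain ⟨C, hC⟩ := hG _ hcont
  obtain ⟨z, hz⟩ := hne
  have hCpos : 0 < |C| + 1 := by positivity
  have hbound : ∀ g : G, (|C| + 1)⁻¹ ≤ 1 - f (g : UniformSpace.Completion G) := by
    intro g
    have h1 := hC g
    rw [abs_of_pos (inv_pos.2 (hlt g))] at h1
    have h2 : (1 - f (g : UniformSpace.Completion G))⁻¹ ≤ |C| + 1 :=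
      h1.trans ((le_abs_self C).trans (by linarith))
    exact inv_le_of_inv_le₀ (hlt g) h2
  have hall : ∀ x : UniformSpace.Completion G, (|C| + 1)⁻¹ ≤ 1 - f x := by
    intro x
    refine UniformSpace.Completion.induction_on x ?_ hbound
    exact isClosed_le continuous_const (continuous_const.sub f.continuous)
  have h1 := hall z
  have h2 : f z = 1 := by
    rw [hf1] at hz
    exact hz
  rw [h2, sub_self] at h1
  exact absurd h1 (not_le.2 (inv_pos.2 hCpos))

end Pool.Agent.MP_f23337_gt
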